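import Pool.Agent.Work.MP_d3517d_nt.Quat.Basic
import Pool.Agent.Work.MP_d3517d_nt.Defs

/-! The arithmetic groups `Γ = O[1/p]ˣ` and its congruence subgroup `Γ'` modulo `M = 3` or `4`. -/

set_option autoImplicit false

open Quaternion

noncomputable section

namespace Gouvea.Quat

variable {p : ℕ} [Fact p.Prime] (d : Datum p)

/-- Membership in the group attached to a multiplicative subset `S` of the order. -/
def InGam (S : Set ℍ[ℚ,d.a,d.b]) (g : G p) : Prop :=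
  ∃ m k : ℕ, ∃ y ∈ S, nrd y = (p : ℚ) ^ k ∧
    ((p : ℚ_[p]) ^ m) • (g : Matrix (Fin 2) (Fin 2) ℚ_[p]) = d.ι y

/-- closure properties of the multiplicative set -/
structure Good (S : Set ℍ[ℚ,d.a,d.b]) : Prop where
  one : (1 : ℍ[ℚ,d.a,d.b]) ∈ S
  mul : ∀ x ∈ S, ∀ y ∈ S, x * y ∈ S
  star : ∀ x ∈ S, star x ∈ S
  psmul : ∀ x ∈ S, (p : ℚ) • x ∈ S

variable {d}

lemma Good.pow_smul {S : Set ℍ[ℚ,d.a,d.b]} (h : Good d S) (m : ℕ) {x : ℍ[ℚ,d.a,d.b]}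
    (hx : x ∈ S) : ((p : ℚ) ^ m) • x ∈ S := by
  induction m with
  | zero => simpa using hx
  | succ m ih =>
    rw [pow_succ', mul_smul]
    exact h.psmul _ ih

lemma p0 : (p : ℚ_[p]) ≠ 0 := by exact_mod_cast (Fact.out : p.Prime).ne_zero

lemma iota_pow_smul (m : ℕ) (x : ℍ[ℚ,d.a,d.b]) :
    d.ι (((p : ℚ) ^ m) • x) = ((p : ℚ_[p]) ^ m) • d.ι x := by
  rw [Datum.iota_smul]; push_cast; rfl

/-- Inverse in matrix form. -/
lemma inv_eq {g : G p} {m k : ℕ} {y : ℍ[ℚ,d.a,d.b]} (hn : nrd y = (p : ℚ) ^ k)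
    (hg : ((p : ℚ_[p]) ^ m) • (g : Matrix (Fin 2) (Fin 2) ℚ_[p]) = d.ι y) :
    ((p : ℚ_[p]) ^ k) • ((g⁻¹ : G p) : Matrix (Fin 2) (Fin 2) ℚ_[p]) =
      d.ι (((p : ℚ) ^ m) • star y) := by
  have h1 : d.ι y * d.ι (star y) = ((p : ℚ_[p]) ^ k) • 1 := by
    rw [← map_mul, mul_star_self, Datum.iota_coe, hn]; push_cast; rfl
  rw [← hg, Matrix.smul_mul] at h1
  have h2 : ((g⁻¹ : G p) : Matrix (Fin 2) (Fin 2) ℚ_[p]) * (g : Matrix (Fin 2) (Fin 2) ℚ_[p]) =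
      1 := by
    rw [← Units.val_mul, inv_mul_cancel, Units.val_one]
  have h3 := congrArg (fun M => ((g⁻¹ : G p) : Matrix (Fin 2) (Fin 2) ℚ_[p]) * M) h1
  simp only [Matrix.mul_smul, Matrix.mul_one] at h3
  rw [← mul_assoc, h2, one_mul] at h3
  rw [iota_pow_smul, h3]

variable (d) in
/-- The group attached to a good multiplicative set. -/
def gamOf (S : Set ℍ[ℚ,d.a,d.b]) (h : Good d S) : Subgroup (G p) where
  carrier := {g | InGam d S g}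
  one_mem' := ⟨0, 0, 1, h.one, by rw [nrd_one, pow_zero], by simp⟩
  mul_mem' := by
    rintro g g' ⟨m, k, y, hy, hn, hg⟩ ⟨m', k', y', hy', hn', hg'⟩
    refine ⟨m + m', k + k', y * y', h.mul _ hy _ hy', by rw [nrd_mul, hn, hn', pow_add], ?_⟩
    rw [map_mul, ← hg, ← hg', Units.val_mul, smul_mul_smul_comm, pow_add]
  inv_mem' := by
    rintro g ⟨m, k, y, hy, hn, hg⟩
    refine ⟨k, 2 * m + k, ((p : ℚ) ^ m) • star y, h.pow_smul m (h.star _ hy), ?_, inv_eq hn hg⟩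
    rw [nrd_smul, nrd_star, hn, pow_add, pow_mul, ← pow_mul, ← pow_mul, mul_comm m 2]

lemma mem_gamOf {S : Set ℍ[ℚ,d.a,d.b]} {h : Good d S} {g : G p} :
    g ∈ gamOf d S h ↔ InGam d S g := Iff.rfl

lemma natCast_smul_eq (n : ℕ) (x : ℍ[ℚ,d.a,d.b]) : (n : ℚ) • x = (n : ℍ[ℚ,d.a,d.b]) * x := by
  rw [← QuaternionAlgebra.coe_mul_eq_smul, QuaternionAlgebra.coe_natCast]

lemma good_O : Good d (d.O : Set ℍ[ℚ,d.a,d.b]) where
  one := d.O.one_mem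
  mul := fun x hx y hy => d.O.mul_mem hx hy
  star := fun x hx => Datum.star_mem hx
  psmul := fun x hx => by
    rw [natCast_smul_eq]
    exact d.O.mul_mem (natCast_mem d.O p) hx

variable (d) in
/-- `Γ = O[1/p]ˣ`. -/
def Gam : Subgroup (G p) := gamOf d d.O good_O

/-- The moduli in use (`3` and `4`): every integer prime to `M` is `± 1` modulo `M`. -/
structure GoodMod (M : ℕ) : Prop where
  ge : 3 ≤ M
  sgn : ∀ n : ℤ, IsCoprime n (M : ℤ) → ∃ e : ℤ, (e = 1 ∨ e = -1) ∧ ∃ j : ℤ, n = e + M * j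

lemma goodMod_three : GoodMod 3 := by
  refine ⟨le_rfl, fun n hn => ?_⟩
  have h0 : ¬ (3 : ℤ) ∣ n := by
    intro h
    have := hn.isUnit_of_dvd' h (dvd_refl _)
    exact absurd (Int.isUnit_iff.1 this) (by norm_num)
  have h1 : n % 3 = 1 ∨ n % 3 = 2 := by omega
  rcases h1 with h | h
  · exact ⟨1, Or.inl rfl, n / 3, by push_cast; omega⟩
  · exact ⟨-1, Or.inr rfl, (n + 1) / 3, by push_cast; omega⟩

lemma goodMod_four : GoodMod 4 := by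
  refine ⟨by norm_num, fun n hn => ?_⟩
  have h0 : ¬ (2 : ℤ) ∣ n := by
    intro h
    have := hn.isUnit_of_dvd' h (by norm_num : (2 : ℤ) ∣ ((4 : ℕ) : ℤ))
    exact absurd (Int.isUnit_iff.1 this) (by norm_num)
  have h1 : n % 4 = 1 ∨ n % 4 = 3 := by omega
  rcases h1 with h | h
  · exact ⟨1, Or.inl rfl, n / 4, by push_cast; omega⟩
  · exact ⟨-1, Or.inr rfl, (n + 1) / 4, by push_cast; omega⟩

variable (d) in
/-- the elements of the order congruent to `± 1` modulo `M` -/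
def SM (M : ℕ) : Set ℍ[ℚ,d.a,d.b] :=
  {y | ∃ e : ℤ, (e = 1 ∨ e = -1) ∧ ∃ z ∈ d.O, y = (e : ℍ[ℚ,d.a,d.b]) + (M : ℍ[ℚ,d.a,d.b]) * z}

lemma SM_sub {M : ℕ} {y : ℍ[ℚ,d.a,d.b]} (hy : y ∈ SM d M) : y ∈ d.O := by
  obtain ⟨e, _, z, hz, rfl⟩ := hy
  exact d.O.add_mem (intCast_mem d.O e) (d.O.mul_mem (natCast_mem d.O M) hz)

lemma mem_SM_of_int {M : ℕ} (hM : GoodMod M) {n : ℤ} (hn : IsCoprime n (M : ℤ))
    {z : ℍ[ℚ,d.a,d.b]} (hz : z ∈ d.O) :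
    (n : ℍ[ℚ,d.a,d.b]) + (M : ℍ[ℚ,d.a,d.b]) * z ∈ SM d M := by
  obtain ⟨e, he, j, hj⟩ := hM.sgn n hn
  refine ⟨e, he, (j : ℍ[ℚ,d.a,d.b]) + z, d.O.add_mem (intCast_mem d.O j) hz, ?_⟩
  rw [hj]; push_cast; noncomm_ring

lemma sign_coprime {e : ℤ} (he : e = 1 ∨ e = -1) (M : ℕ) : IsCoprime e (M : ℤ) := by
  rcases he with rfl | rfl
  · exact isCoprime_one_left
  · exact isCoprime_one_left.neg_left

lemma good_SM {M : ℕ} (hM : GoodMod M) (hp : IsCoprime (p : ℤ) (M : ℤ)) : Good d (SM d M) where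
  one := ⟨1, Or.inl rfl, 0, d.O.zero_mem, by simp⟩
  mul := by
    rintro _ ⟨e, he, z, hz, rfl⟩ _ ⟨e', he', z', hz', rfl⟩
    have hc : ((e : ℍ[ℚ,d.a,d.b]) + (M : ℍ[ℚ,d.a,d.b]) * z) *
        ((e' : ℍ[ℚ,d.a,d.b]) + (M : ℍ[ℚ,d.a,d.b]) * z') =
        ((e * e' : ℤ) : ℍ[ℚ,d.a,d.b]) +
          (M : ℍ[ℚ,d.a,d.b]) * ((e : ℍ[ℚ,d.a,d.b]) * z' + (e' : ℍ[ℚ,d.a,d.b]) * z +
            (M : ℍ[ℚ,d.a,d.b]) * (z * z')) := by
      have h1 : z * (e' : ℍ[ℚ,d.a,d.b]) = (e' : ℍ[ℚ,d.a,d.b]) * z := (Int.cast_commute e' z).symm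
      have h2 : (e : ℍ[ℚ,d.a,d.b]) * (M : ℍ[ℚ,d.a,d.b]) = (M : ℍ[ℚ,d.a,d.b]) * e :=
        Int.cast_commute e _
      have h3 : z * (M : ℍ[ℚ,d.a,d.b]) = (M : ℍ[ℚ,d.a,d.b]) * z := (Nat.cast_commute M z).symm
      push_cast
      calc ((e : ℍ[ℚ,d.a,d.b]) + (M : ℍ[ℚ,d.a,d.b]) * z) *
          ((e' : ℍ[ℚ,d.a,d.b]) + (M : ℍ[ℚ,d.a,d.b]) * z')
          = (e : ℍ[ℚ,d.a,d.b]) * e' + (e : ℍ[ℚ,d.a,d.b]) * (M : ℍ[ℚ,d.a,d.b]) * z' +
            (M : ℍ[ℚ,d.a,d.b]) * (z * e') +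
            (M : ℍ[ℚ,d.a,d.b]) * (z * (M : ℍ[ℚ,d.a,d.b]) * z') := by noncomm_ring
        _ = _ := by rw [h1, h2, h3]; noncomm_ring
    rw [hc]
    refine mem_SM_of_int hM ((sign_coprime he M).mul_left (sign_coprime he' M)) ?_
    exact d.O.add_mem (d.O.add_mem (d.O.mul_mem (intCast_mem d.O e) hz')
      (d.O.mul_mem (intCast_mem d.O e') hz)) (d.O.mul_mem (natCast_mem d.O M) (d.O.mul_mem hz hz'))
  star := by
    rintro _ ⟨e, he, z, hz, rfl⟩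
    refine ⟨e, he, star z, Datum.star_mem hz, ?_⟩
    have h3 : star z * (M : ℍ[ℚ,d.a,d.b]) = (M : ℍ[ℚ,d.a,d.b]) * star z :=
      (Nat.cast_commute M (star z)).symm
    rw [star_add, star_mul, star_intCast, star_natCast, h3]
  psmul := by
    rintro _ ⟨e, he, z, hz, rfl⟩
    rw [natCast_smul_eq]
    have : (p : ℍ[ℚ,d.a,d.b]) * ((e : ℍ[ℚ,d.a,d.b]) + (M : ℍ[ℚ,d.a,d.b]) * z) =
        (((p : ℤ) * e : ℤ) : ℍ[ℚ,d.a,d.b]) +
          (M : ℍ[ℚ,d.a,d.b]) * ((p : ℍ[ℚ,d.a,d.b]) * z) := by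
      have h1 : (p : ℍ[ℚ,d.a,d.b]) * (M : ℍ[ℚ,d.a,d.b]) = (M : ℍ[ℚ,d.a,d.b]) * p :=
        Nat.cast_commute p _
      push_cast
      rw [mul_add, ← mul_assoc, h1, mul_assoc]
    rw [this]
    exact mem_SM_of_int hM (hp.mul_left (sign_coprime he M))
      (d.O.mul_mem (natCast_mem d.O p) hz)

variable (d) in
/-- the congruence subgroup `Γ'` -/
def Gam' {M : ℕ} (hM : GoodMod M) (hp : IsCoprime (p : ℤ) (M : ℤ)) : Subgroup (G p) :=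
  gamOf d (SM d M) (good_SM hM hp)

lemma Gam'_le {M : ℕ} (hM : GoodMod M) (hp : IsCoprime (p : ℤ) (M : ℤ)) :
    Gam' d hM hp ≤ Gam d := by
  rintro g ⟨m, k, y, hy, hn, hg⟩
  exact ⟨m, k, y, SM_sub hy, hn, hg⟩

/-- Conjugation by `Γ` preserves `Γ'`. -/
lemma conj_mem {M : ℕ} (hM : GoodMod M) (hp : IsCoprime (p : ℤ) (M : ℤ)) {g g' : G p}
    (hg : g ∈ Gam d) (hg' : g' ∈ Gam' d hM hp) : g * g' * g⁻¹ ∈ Gam' d hM hp := by
  obtain ⟨m, k, y, hy, hn, h1⟩ := hg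
  obtain ⟨m', k', y', ⟨e, he, z, hz, rfl⟩, hn', h1'⟩ := hg'
  have h2 := inv_eq hn h1
  refine ⟨m + m' + k, 2 * m + (2 * k + k'),
    ((p : ℚ) ^ m) • (y * ((e : ℍ[ℚ,d.a,d.b]) + (M : ℍ[ℚ,d.a,d.b]) * z) * star y), ?_, ?_, ?_⟩
  · apply (good_SM hM hp).pow_smul
    have e1 : y * ((e : ℍ[ℚ,d.a,d.b]) + (M : ℍ[ℚ,d.a,d.b]) * z) * star y =
        (((p : ℤ) ^ k * e : ℤ) : ℍ[ℚ,d.a,d.b]) + (M : ℍ[ℚ,d.a,d.b]) * (y * z * star y) := by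
      have h3 : y * (e : ℍ[ℚ,d.a,d.b]) = (e : ℍ[ℚ,d.a,d.b]) * y := (Int.cast_commute e y).symm
      have h4 : y * star y = (((p : ℤ) ^ k : ℤ) : ℍ[ℚ,d.a,d.b]) := by
        rw [mul_star_self, hn, ← QuaternionAlgebra.coe_intCast]
        congr 1
        push_cast; rfl
      have h5 : y * (M : ℍ[ℚ,d.a,d.b]) = (M : ℍ[ℚ,d.a,d.b]) * y := (Nat.cast_commute M y).symm
      calc y * ((e : ℍ[ℚ,d.a,d.b]) + (M : ℍ[ℚ,d.a,d.b]) * z) * star y =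
            y * (e : ℍ[ℚ,d.a,d.b]) * star y + (y * (M : ℍ[ℚ,d.a,d.b])) * z * star y := by
              noncomm_ring
        _ = (e : ℍ[ℚ,d.a,d.b]) * (y * star y) + (M : ℍ[ℚ,d.a,d.b]) * (y * z * star y) := by
            rw [h3, h5]; noncomm_ring
        _ = _ := by
            rw [h4, mul_comm ((p : ℤ) ^ k) e, Int.cast_mul]
    rw [e1]
    exact mem_SM_of_int hM (hp.pow_left.mul_left (sign_coprime he M))
      (d.O.mul_mem (d.O.mul_mem hy hz) (Datum.star_mem hy))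
  · rw [nrd_smul, nrd_mul, nrd_mul, nrd_star, hn, hn']; ring
  · rw [iota_pow_smul, map_mul, map_mul, ← h1, ← h1', Units.val_mul, Units.val_mul]
    rw [iota_pow_smul] at h2
    rw [Matrix.smul_mul, Matrix.mul_smul, smul_smul, Matrix.smul_mul, smul_smul]
    have h7 : ((p : ℚ_[p]) ^ m) • d.ι (star y) =
      ((p : ℚ_[p]) ^ k) • ((g⁻¹ : G p) : Matrix (Fin 2) (Fin 2) ℚ_[p]) := h2.symm
    calc ((p : ℚ_[p]) ^ (m + m' + k)) • (g.1 * g'.1 * (g⁻¹ : G p).1)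
        = ((p : ℚ_[p]) ^ m * (p : ℚ_[p]) ^ m') • (g.1 * g'.1 *
            (((p : ℚ_[p]) ^ k) • (g⁻¹ : G p).1)) := by
          rw [Matrix.mul_smul, smul_smul]; congr 1; ring
      _ = ((p : ℚ_[p]) ^ m * (p : ℚ_[p]) ^ m') • (g.1 * g'.1 *
            (((p : ℚ_[p]) ^ m) • d.ι (star y))) := by rw [h7]
      _ = _ := by
          rw [Matrix.mul_smul, smul_smul]; congr 1; ring

/-- Two elements of `Γ` with congruent numerators are in the same coset of `Γ'`. -/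
lemma coset_eq {M : ℕ} (hM : GoodMod M) (hp : IsCoprime (p : ℤ) (M : ℤ)) {g₁ g₂ : G p}
    {m₁ m₂ k₁ k₂ : ℕ} {y₁ y₂ z : ℍ[ℚ,d.a,d.b]}
    (hy₁ : y₁ ∈ d.O) (hz : z ∈ d.O) (hn₁ : nrd y₁ = (p : ℚ) ^ k₁) (hn₂ : nrd y₂ = (p : ℚ) ^ k₂)
    (h₁ : ((p : ℚ_[p]) ^ m₁) • (g₁ : Matrix (Fin 2) (Fin 2) ℚ_[p]) = d.ι y₁)
    (h₂ : ((p : ℚ_[p]) ^ m₂) • (g₂ : Matrix (Fin 2) (Fin 2) ℚ_[p]) = d.ι y₂)
    (h : y₂ = y₁ + (M : ℍ[ℚ,d.a,d.b]) * z) : g₁⁻¹ * g₂ ∈ Gam' d hM hp := by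
  have h3 := inv_eq hn₁ h₁
  refine ⟨k₁ + m₂, 2 * m₁ + (k₁ + k₂), ((p : ℚ) ^ m₁) • (star y₁ * y₂), ?_, ?_, ?_⟩
  · apply (good_SM hM hp).pow_smul
    have e1 : star y₁ * y₂ = (((p : ℤ) ^ k₁ : ℤ) : ℍ[ℚ,d.a,d.b]) +
        (M : ℍ[ℚ,d.a,d.b]) * (star y₁ * z) := by
      have h4 : star y₁ * y₁ = (((p : ℤ) ^ k₁ : ℤ) : ℍ[ℚ,d.a,d.b]) := by
        rw [star_mul_self, hn₁, ← QuaternionAlgebra.coe_intCast]
        congr 1
        push_cast; rfl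
      have h5 : star y₁ * (M : ℍ[ℚ,d.a,d.b]) = (M : ℍ[ℚ,d.a,d.b]) * star y₁ :=
        (Nat.cast_commute M _).symm
      calc star y₁ * y₂ = star y₁ * y₁ + star y₁ * (M : ℍ[ℚ,d.a,d.b]) * z := by
            rw [h]; noncomm_ring
        _ = _ := by rw [h4, h5]; noncomm_ring
    rw [e1]
    exact mem_SM_of_int hM hp.pow_left (d.O.mul_mem (Datum.star_mem hy₁) hz)
  · rw [nrd_smul, nrd_mul, nrd_star, hn₁, hn₂]; ring
  · rw [iota_pow_smul, map_mul, ← h₂, Units.val_mul]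
    rw [iota_pow_smul] at h3
    calc ((p : ℚ_[p]) ^ (k₁ + m₂)) • ((g₁⁻¹ : G p).1 * g₂.1)
        = (((p : ℚ_[p]) ^ k₁) • (g₁⁻¹ : G p).1) * (((p : ℚ_[p]) ^ m₂) • g₂.1) := by
          rw [Matrix.smul_mul, Matrix.mul_smul, smul_smul, pow_add]
      _ = _ := by
          rw [h3, Matrix.smul_mul]

/-! ### finiteness of the index -/

variable (d) in
/-- multiples of `M` in the order -/
def multO (M : ℕ) : Submodule ℤ d.O :=
  LinearMap.range ((M : ℤ) • (LinearMap.id : d.O →ₗ[ℤ] d.O))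

lemma finite_quot {M : ℕ} (hM : 3 ≤ M) : Finite (d.O ⧸ multO d M) := by
  have := d.moduleFinite
  refine Module.finite_of_fg_torsion (d.O ⧸ multO d M) ?_
  intro x
  refine ⟨⟨(M : ℤ), mem_nonZeroDivisors_of_ne_zero (by exact_mod_cast (by omega : M ≠ 0))⟩, ?_⟩
  obtain ⟨y, rfl⟩ := Submodule.mkQ_surjective _ x
  change (M : ℤ) • (multO d M).mkQ y = 0
  rw [← map_smul, Submodule.mkQ_apply, Submodule.Quotient.mk_eq_zero]
  exact ⟨y, by simp⟩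

lemma finite_index {M : ℕ} (hM : GoodMod M) (hp : IsCoprime (p : ℤ) (M : ℤ)) :
    Finite (Gam d ⧸ (Gam' d hM hp).subgroupOf (Gam d)) := by
  classical
  have := finite_quot (d := d) hM.ge
  have hch : ∀ g : Gam d, InGam d d.O (g : G p) := fun g => g.2
  choose m k y hy hn hg using hch
  let f : Gam d ⧸ (Gam' d hM hp).subgroupOf (Gam d) → d.O ⧸ multO d M :=
    fun q => (multO d M).mkQ ⟨y q.out, hy q.out⟩
  refine Finite.of_injective f ?_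
  intro q₁ q₂ h
  have h1 : (⟨y q₂.out, hy q₂.out⟩ : d.O) - ⟨y q₁.out, hy q₁.out⟩ ∈ multO d M := by
    rw [← Submodule.Quotient.eq]
    exact h.symm
  obtain ⟨z, hz⟩ := h1
  have h2 : y q₂.out = y q₁.out + (M : ℍ[ℚ,d.a,d.b]) * (z : ℍ[ℚ,d.a,d.b]) := by
    have h3 := congrArg (fun w : d.O => (w : ℍ[ℚ,d.a,d.b])) hz
    have h4 : ((((M : ℤ) • (LinearMap.id : d.O →ₗ[ℤ] d.O)) z : d.O) : ℍ[ℚ,d.a,d.b]) =
        (M : ℍ[ℚ,d.a,d.b]) * z := by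
      rw [LinearMap.smul_apply, LinearMap.id_apply]
      have h5 : (M : ℤ) • z = (M : d.O) * z := by rw [zsmul_eq_mul]; push_cast; rfl
      rw [h5]; rfl
    rw [h4] at h3
    rw [h3]
    simp
  have h3 := coset_eq hM hp (hy q₁.out) z.2 (hn q₁.out) (hn q₂.out) (hg q₁.out) (hg q₂.out) h2
  rw [← Quotient.out_eq q₁, ← Quotient.out_eq q₂]
  refine QuotientGroup.eq.2 ?_
  rw [Subgroup.mem_subgroupOf]
  exact h3

instance normal_sub {M : ℕ} (hM : GoodMod M) (hp : IsCoprime (p : ℤ) (M : ℤ)) :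
    ((Gam' d hM hp).subgroupOf (Gam d)).Normal := by
  constructor
  intro g' hg' g
  rw [Subgroup.mem_subgroupOf] at hg' ⊢
  exact conj_mem hM hp g.2 hg'

end Gouvea.Quat
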