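import Pool.Agent.Work.MP_d3517d_nt.Quat.ClassB
import Pool.Agent.Work.MP_d3517d_nt.Quat.Group

/-! Finiteness of the class number: `K \ GL₂(ℚ_p) / Γ` is finite. -/

set_option autoImplicit false

open Quaternion Polynomial Finset

noncomputable section

namespace Gouvea.Quat

variable {p : ℕ} [Fact p.Prime]

lemma cl_p0 : (p : ℚ_[p]) ≠ 0 := by exact_mod_cast (Fact.out : p.Prime).ne_zero

lemma exists_pow_int (M : Matrix (Fin 2) (Fin 2) ℚ_[p]) :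
    ∃ (N : ℕ) (B : Matrix (Fin 2) (Fin 2) ℤ_[p]), ((p : ℚ_[p]) ^ N) • M = mz p B := by
  have hp : (1 : ℝ) < p := by exact_mod_cast (Fact.out : p.Prime).one_lt
  obtain ⟨N, hN⟩ := pow_unbounded_of_one_lt (∑ i, ∑ j, ‖M i j‖) hp
  have h1 : ∀ i j, ‖M i j‖ ≤ (p : ℝ) ^ N := by
    intro i j
    refine le_trans ?_ hN.le
    calc ‖M i j‖ ≤ ∑ j, ‖M i j‖ :=
          single_le_sum (f := fun j => ‖M i j‖) (fun _ _ => norm_nonneg _) (mem_univ j)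
      _ ≤ ∑ i, ∑ j, ‖M i j‖ :=
          single_le_sum (f := fun i => ∑ j, ‖M i j‖)
            (fun _ _ => sum_nonneg fun _ _ => norm_nonneg _) (mem_univ i)
  obtain ⟨B, hB⟩ := exists_mz (p := p) (M := ((p : ℚ_[p]) ^ N) • M) (by
    intro i j
    rw [Matrix.smul_apply, smul_eq_mul, norm_mul, norm_pow, Padic.norm_p, inv_pow]
    rw [inv_mul_le_iff₀ (by positivity), mul_one]
    exact h1 i j)
  exact ⟨N, B, hB.symm⟩

lemma inv_mul_mat (g : G p) : ((g⁻¹ : G p) : Matrix (Fin 2) (Fin 2) ℚ_[p]) *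
    (g : Matrix (Fin 2) (Fin 2) ℚ_[p]) = 1 := by
  rw [← Units.val_mul, inv_mul_cancel, Units.val_one]

lemma mul_inv_mat (g : G p) : (g : Matrix (Fin 2) (Fin 2) ℚ_[p]) *
    ((g⁻¹ : G p) : Matrix (Fin 2) (Fin 2) ℚ_[p]) = 1 := by
  rw [← Units.val_mul, mul_inv_cancel, Units.val_one]

variable (d : Datum p)

/-- a power of `p` lies in the ideal -/
lemma exists_pow_mem (g : G p) : ∃ N : ℕ, ((p ^ N : ℕ) : ℚ) • (1 : ℍ[ℚ,d.a,d.b]) ∈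
    LL d (g : Matrix (Fin 2) (Fin 2) ℚ_[p]) := by
  obtain ⟨N, B, hB⟩ := exists_pow_int ((g⁻¹ : G p) : Matrix (Fin 2) (Fin 2) ℚ_[p])
  refine ⟨N, natSmul_mem_O d.O.one_mem _, B, ?_⟩
  rw [Datum.iota_smul, map_one, ← hB, Matrix.smul_mul, inv_mul_mat]
  push_cast
  rfl

lemma pow_smul_one_ne (N : ℕ) : ((p ^ N : ℕ) : ℚ) • (1 : ℍ[ℚ,d.a,d.b]) ≠ 0 := by
  intro h
  have h1 := congrArg nrd h
  rw [nrd_smul, nrd_one, nrd_zero, mul_one] at h1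
  have h2 : ((p ^ N : ℕ) : ℚ) ≠ 0 := by
    exact_mod_cast pow_ne_zero N (Fact.out : p.Prime).ne_zero
  exact pow_ne_zero 2 h2 h1

lemma isUnit_one_add (t : ℤ_[p]) : IsUnit (1 + (p : ℤ_[p]) * t) := by
  rw [PadicInt.isUnit_iff]
  by_contra hcon
  have h1 : ‖1 + (p : ℤ_[p]) * t‖ < 1 := lt_of_le_of_ne (PadicInt.norm_le_one _) hcon
  rw [PadicInt.norm_lt_one_iff_dvd] at h1
  have h2 : (p : ℤ_[p]) ∣ 1 := by
    have := dvd_sub h1 (Dvd.intro t rfl)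
    rwa [add_sub_cancel_right] at this
  have h3 := (PadicInt.norm_lt_one_iff_dvd (1 : ℤ_[p])).2 h2
  rw [norm_one] at h3
  exact lt_irrefl _ h3

lemma isUnit_det_one_add (M : Matrix (Fin 2) (Fin 2) ℤ_[p]) :
    IsUnit (1 + (p : ℤ_[p]) • M).det := by
  have h : (1 + (p : ℤ_[p]) • M).det = 1 + (p : ℤ_[p]) *
      (M 0 0 + M 1 1 + p * (M 0 0 * M 1 1 - M 0 1 * M 1 0)) := by
    rw [Matrix.det_fin_two]
    simp
    ring
  rw [h]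
  exact isUnit_one_add _

lemma mz_smul (a : ℤ_[p]) (M : Matrix (Fin 2) (Fin 2) ℤ_[p]) :
    mz p (a • M) = (a : ℚ_[p]) • mz p M := by
  ext i j
  rw [mz_apply, Matrix.smul_apply, Matrix.smul_apply, mz_apply, smul_eq_mul, smul_eq_mul,
    PadicInt.coe_mul]

/-- an element of the ideal generating it at `p` -/
lemma exists_gen (g : G p) (Gz : Matrix (Fin 2) (Fin 2) ℤ_[p])
    (hg : (g : Matrix (Fin 2) (Fin 2) ℚ_[p]) = mz p Gz) :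
    ∃ x ∈ LL d (g : Matrix (Fin 2) (Fin 2) ℚ_[p]), ∃ B : Matrix (Fin 2) (Fin 2) ℤ_[p],
      IsUnit B.det ∧ d.ι x = mz p B * (g : Matrix (Fin 2) (Fin 2) ℚ_[p]) := by
  obtain ⟨N, A, hA⟩ := exists_pow_int ((g⁻¹ : G p) : Matrix (Fin 2) (Fin 2) ℚ_[p])
  obtain ⟨x, hx, E, hE⟩ := cl_dense d Gz (N + 1)
  have h1 : d.ι x = mz p (1 + (p : ℤ_[p]) • (E * A)) * (g : Matrix (Fin 2) (Fin 2) ℚ_[p]) := by
    rw [hE, map_add, map_one, add_mul, one_mul, ← hg, mz_smul, map_mul, ← hA,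
      PadicInt.coe_natCast, Matrix.mul_smul, Matrix.smul_mul, Matrix.smul_mul, mul_assoc,
      inv_mul_mat, mul_one, smul_smul, ← pow_succ']
  exact ⟨x, ⟨hx, _, h1⟩, _, isUnit_det_one_add _, h1⟩

/-- the local comparison -/
lemma exists_factor (g g' : G p) (Gz : Matrix (Fin 2) (Fin 2) ℤ_[p])
    (hg : (g : Matrix (Fin 2) (Fin 2) ℚ_[p]) = mz p Gz) (c : ℍ[ℚ,d.a,d.b])
    (h : ∀ x ∈ LL d (g : Matrix (Fin 2) (Fin 2) ℚ_[p]),
      ∃ x' ∈ LL d (g' : Matrix (Fin 2) (Fin 2) ℚ_[p]), x = x' * c) :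
    ∃ A : Matrix (Fin 2) (Fin 2) ℤ_[p], (g : Matrix (Fin 2) (Fin 2) ℚ_[p]) =
      mz p A * ((g' : Matrix (Fin 2) (Fin 2) ℚ_[p]) * d.ι c) := by
  obtain ⟨x, hx, B, hB, hxB⟩ := exists_gen d g Gz hg
  obtain ⟨x', ⟨_, B', hB'⟩, hxc⟩ := h x hx
  refine ⟨B⁻¹ * B', ?_⟩
  have h1 : mz p B * (g : Matrix (Fin 2) (Fin 2) ℚ_[p]) =
      mz p B' * ((g' : Matrix (Fin 2) (Fin 2) ℚ_[p]) * d.ι c) := by
    rw [← hxB, hxc, map_mul, hB', mul_assoc]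
  rw [map_mul, mul_assoc, ← h1, ← mul_assoc, ← map_mul, Matrix.nonsing_inv_mul B hB, map_one,
    one_mul]

/-- two integral matrices with equal codes lie in the same double coset -/
lemma same_coset {C : ℕ} (hC : IsC d C) {S : Finset ℍ[ℚ,d.a,d.b]}
    (hS : ∀ u ∈ d.O, ∃ r ∈ S, ∃ v ∈ d.O, u = r + ((C.factorial : ℕ) : ℚ) • v)
    (g g' : G p) (Gz Gz' : Matrix (Fin 2) (Fin 2) ℤ_[p])
    (hg : (g : Matrix (Fin 2) (Fin 2) ℚ_[p]) = mz p Gz)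
    (hg' : (g' : Matrix (Fin 2) (Fin 2) ℚ_[p]) = mz p Gz')
    (x0 x0' : ℍ[ℚ,d.a,d.b]) (hx0 : x0 ∈ LL d (g : Matrix (Fin 2) (Fin 2) ℚ_[p])) (h0 : x0 ≠ 0)
    (hmin : ∀ x ∈ LL d (g : Matrix (Fin 2) (Fin 2) ℚ_[p]), nrd x < nrd x0 → x = 0)
    (hx0' : x0' ∈ LL d (g' : Matrix (Fin 2) (Fin 2) ℚ_[p])) (h0' : x0' ≠ 0)
    (hmin' : ∀ x ∈ LL d (g' : Matrix (Fin 2) (Fin 2) ℚ_[p]), nrd x < nrd x0' → x = 0)
    (hcode : ∀ r ∈ S, InJ C.factorial (g : Matrix (Fin 2) (Fin 2) ℚ_[p]) x0 r ↔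
      InJ C.factorial (g' : Matrix (Fin 2) (Fin 2) ℚ_[p]) x0' r) :
    ∃ k ∈ K p, ∃ γ : G p, InGam d d.O γ ∧ g = k * g' * γ := by
  obtain ⟨c, hc⟩ : ∃ c, c = dinv x0' * x0 := ⟨_, rfl⟩
  obtain ⟨c', hc'⟩ : ∃ c', c' = dinv x0 * x0' := ⟨_, rfl⟩
  have hcc : c * c' = 1 := by
    rw [hc, hc', mul_assoc, ← mul_assoc x0, mul_dinv h0, one_mul, dinv_mul h0']
  have hcc' : c' * c = 1 := by
    rw [hc, hc', mul_assoc, ← mul_assoc x0', mul_dinv h0', one_mul, dinv_mul h0]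
  have t1 : ∀ x ∈ LL d (g : Matrix (Fin 2) (Fin 2) ℚ_[p]),
      ∃ x' ∈ LL d (g' : Matrix (Fin 2) (Fin 2) ℚ_[p]), x = x' * c := by
    intro x hx
    rw [hc]
    exact code_transfer hC hS hx0 h0 hmin hx0' h0' (fun r hr => (hcode r hr).1) hx
  have t2 : ∀ x ∈ LL d (g' : Matrix (Fin 2) (Fin 2) ℚ_[p]),
      ∃ x' ∈ LL d (g : Matrix (Fin 2) (Fin 2) ℚ_[p]), x = x' * c' := by
    intro x hx
    rw [hc']
    exact code_transfer hC hS hx0' h0' hmin' hx0 h0 (fun r hr => (hcode r hr).2) hx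
  obtain ⟨A1, hA1⟩ := exists_factor d g g' Gz hg c t1
  obtain ⟨A2, hA2⟩ := exists_factor d g' g Gz' hg' c' t2
  have hιcc : d.ι c' * d.ι c = 1 := by rw [← map_mul, hcc', map_one]
  have hA : A1 * A2 = 1 := by
    apply mz_injective
    have h1 : mz p (A1 * A2) * (g : Matrix (Fin 2) (Fin 2) ℚ_[p]) = g := by
      conv_rhs => rw [hA1, hA2]
      simp only [map_mul, mul_assoc, hιcc, mul_one]
    calc mz p (A1 * A2) = mz p (A1 * A2) * ((g : Matrix (Fin 2) (Fin 2) ℚ_[p]) *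
          ((g⁻¹ : G p) : Matrix (Fin 2) (Fin 2) ℚ_[p])) := by rw [mul_inv_mat, mul_one]
      _ = mz p 1 := by rw [← mul_assoc, h1, mul_inv_mat, map_one]
  have hA' : A2 * A1 = 1 := mul_eq_one_comm.1 hA
  -- the element of `K`
  let kz : Matrix.GeneralLinearGroup (Fin 2) ℤ_[p] := ⟨A1, A2, hA, hA'⟩
  let γ : G p := ⟨d.ι c, d.ι c', by rw [← map_mul, hcc, map_one], hιcc⟩
  refine ⟨Matrix.GeneralLinearGroup.map (algebraMap ℤ_[p] ℚ_[p]) kz, ⟨kz, rfl⟩, γ, ?_, ?_⟩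
  · -- `γ ∈ Γ`
    obtain ⟨N, hN⟩ := exists_pow_mem d g
    obtain ⟨N', hN'⟩ := exists_pow_mem d g'
    obtain ⟨x', hx', hx'2⟩ := t1 _ hN
    obtain ⟨x, hx, hx2⟩ := t2 _ hN'
    have e1 : x' = ((p ^ N : ℕ) : ℚ) • c' := by
      calc x' = x' * c * c' := by rw [mul_assoc, hcc, mul_one]
        _ = ((p ^ N : ℕ) : ℚ) • c' := by rw [← hx'2, smul_mul_assoc, one_mul]
    have e2 : x = ((p ^ N' : ℕ) : ℚ) • c := by
      calc x = x * c' * c := by rw [mul_assoc, hcc', mul_one]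
        _ = ((p ^ N' : ℕ) : ℚ) • c := by rw [← hx2, smul_mul_assoc, one_mul]
    obtain ⟨n, hn⟩ := Datum.exists_norm hx.1
    obtain ⟨n', hn'⟩ := Datum.exists_norm hx'.1
    have h1 : nrd x * nrd x' = ((p ^ (2 * (N' + N)) : ℕ) : ℚ) := by
      rw [e1, e2, nrd_smul, nrd_smul]
      have h2 : nrd c * nrd c' = 1 := by rw [← nrd_mul, hcc, nrd_one]
      calc ((p ^ N' : ℕ) : ℚ) ^ 2 * nrd c * (((p ^ N : ℕ) : ℚ) ^ 2 * nrd c')
          = ((p ^ N' : ℕ) : ℚ) ^ 2 * ((p ^ N : ℕ) : ℚ) ^ 2 * (nrd c * nrd c') := by ring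
        _ = ((p ^ (2 * (N' + N)) : ℕ) : ℚ) := by rw [h2]; push_cast; ring
    rw [hn, hn'] at h1
    have h2 : n * n' = p ^ (2 * (N' + N)) := by exact_mod_cast h1
    obtain ⟨k, _, hk⟩ := (Nat.dvd_prime_pow (Fact.out : p.Prime)).1 (Dvd.intro n' h2)
    refine ⟨N', k, x, hx.1, by rw [hn, hk]; push_cast; rfl, ?_⟩
    show ((p : ℚ_[p]) ^ N') • d.ι c = d.ι x
    rw [e2, Datum.iota_smul]
    push_cast
    rfl
  · apply Units.ext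
    rw [Units.val_mul, Units.val_mul]
    show (g : Matrix (Fin 2) (Fin 2) ℚ_[p]) =
      mz p A1 * (g' : Matrix (Fin 2) (Fin 2) ℚ_[p]) * d.ι c
    rw [mul_assoc]
    exact hA1

/-- scalar elements -/
lemma exists_scalar (p : ℕ) [Fact p.Prime] (m : ℕ) : ∃ s : G p,
    (s : Matrix (Fin 2) (Fin 2) ℚ_[p]) = ((p : ℚ_[p]) ^ m) • 1 ∧
    ((s⁻¹ : G p) : Matrix (Fin 2) (Fin 2) ℚ_[p]) = (((p : ℚ_[p]) ^ m)⁻¹) • 1 := by
  have h : ((p : ℚ_[p]) ^ m) ≠ 0 := pow_ne_zero m cl_p0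
  exact ⟨⟨((p : ℚ_[p]) ^ m) • 1, (((p : ℚ_[p]) ^ m)⁻¹) • 1,
    by rw [Matrix.smul_mul, Matrix.mul_smul, one_mul, smul_smul, mul_inv_cancel₀ h, one_smul],
    by rw [Matrix.smul_mul, Matrix.mul_smul, one_mul, smul_smul, inv_mul_cancel₀ h, one_smul]⟩,
    rfl, rfl⟩

/-- The class number is finite. -/
theorem exists_finite_reps : ∃ F : Finset (G p), ∀ g : G p, ∃ k ∈ K p, ∃ f ∈ F,
    ∃ γ ∈ Gam d, g = k * f * γ := by
  classical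
  obtain ⟨C, hC⟩ := cl_approx d
  obtain ⟨S, hS⟩ := exists_rep d C.factorial (Nat.factorial_pos C)
  have H : ∀ g : G p, ∃ x0 ∈ LL d (g : Matrix (Fin 2) (Fin 2) ℚ_[p]), x0 ≠ 0 ∧
      ∀ x ∈ LL d (g : Matrix (Fin 2) (Fin 2) ℚ_[p]), nrd x < nrd x0 → x = 0 := by
    intro g
    obtain ⟨N, hN⟩ := exists_pow_mem d g
    exact exists_min d ⟨_, hN, pow_smul_one_ne d N⟩
  choose x0 hx0 h0 hmin using H
  obtain ⟨code, hcode⟩ : ∃ code : G p → Finset ℍ[ℚ,d.a,d.b], ∀ g, code g =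
      S.filter (fun r => InJ C.factorial (g : Matrix (Fin 2) (Fin 2) ℚ_[p]) (x0 g) r) :=
    ⟨_, fun _ => rfl⟩
  obtain ⟨rep, hrep⟩ : ∃ rep : Finset ℍ[ℚ,d.a,d.b] → G p, ∀ T,
      (∃ g : G p, (∃ Gz, (g : Matrix (Fin 2) (Fin 2) ℚ_[p]) = mz p Gz) ∧ code g = T) →
      (∃ Gz, ((rep T : G p) : Matrix (Fin 2) (Fin 2) ℚ_[p]) = mz p Gz) ∧ code (rep T) = T := by
    have : ∀ T, ∃ f : G p,
      (∃ g : G p, (∃ Gz, (g : Matrix (Fin 2) (Fin 2) ℚ_[p]) = mz p Gz) ∧ code g = T) →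
      (∃ Gz, ((f : G p) : Matrix (Fin 2) (Fin 2) ℚ_[p]) = mz p Gz) ∧ code f = T := by
      intro T
      by_cases h : ∃ g : G p, (∃ Gz, (g : Matrix (Fin 2) (Fin 2) ℚ_[p]) = mz p Gz) ∧ code g = T
      · obtain ⟨g, hg⟩ := h
        exact ⟨g, fun _ => hg⟩
      · exact ⟨1, fun h' => absurd h' h⟩
    choose rep hrep using this
    exact ⟨rep, hrep⟩
  refine ⟨S.powerset.image rep, fun g => ?_⟩
  -- make `g` integral
  obtain ⟨m, Gz, hm⟩ := exists_pow_int (g : Matrix (Fin 2) (Fin 2) ℚ_[p])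
  obtain ⟨s, hs, hs'⟩ := exists_scalar p m
  have hsg : ((s * g : G p) : Matrix (Fin 2) (Fin 2) ℚ_[p]) = mz p Gz := by
    rw [Units.val_mul, hs, Matrix.smul_mul, one_mul, hm]
  obtain ⟨⟨Gz', hf⟩, hfc⟩ := hrep (code (s * g)) ⟨s * g, ⟨Gz, hsg⟩, rfl⟩
  obtain ⟨k, hk, γ, hγ, hkγ⟩ := same_coset d hC hS (s * g) (rep (code (s * g))) Gz Gz' hsg hf
    (x0 (s * g)) (x0 (rep (code (s * g)))) (hx0 _) (h0 _) (hmin _) (hx0 _) (h0 _) (hmin _) (by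
      intro r hr
      have h1 : r ∈ code (s * g) ↔ r ∈ code (rep (code (s * g))) := by rw [hfc]
      have h2 : ∀ g' : G p, r ∈ code g' ↔
          InJ C.factorial (g' : Matrix (Fin 2) (Fin 2) ℚ_[p]) (x0 g') r := by
        intro g'
        rw [hcode, mem_filter]
        exact ⟨fun h => h.2, fun h => ⟨hr, h⟩⟩
      exact (h2 _).symm.trans (h1.trans (h2 _)))
  refine ⟨k, hk, rep (code (s * g)), mem_image_of_mem _ (mem_powerset.2 ?_), s⁻¹ * γ, ?_, ?_⟩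
  · rw [hcode]
    exact filter_subset _ _
  · obtain ⟨m', k', y, hy, hn, hγy⟩ := hγ
    show InGam d d.O (s⁻¹ * γ)
    refine ⟨m' + m, k', y, hy, hn, ?_⟩
    have h : ((p : ℚ_[p]) ^ m) ≠ 0 := pow_ne_zero m cl_p0
    rw [Units.val_mul, hs', Matrix.smul_mul, one_mul, smul_smul, pow_add, mul_assoc,
      mul_inv_cancel₀ h, mul_one]
    exact hγy
  · have hcomm : ∀ x : G p, s⁻¹ * x = x * s⁻¹ := by
      intro x
      apply Units.ext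
      rw [Units.val_mul, Units.val_mul, hs', Matrix.smul_mul, Matrix.mul_smul, one_mul, mul_one]
    rw [← mul_assoc, ← hcomm (k * rep (code (s * g))), mul_assoc s⁻¹, ← hkγ, inv_mul_cancel_left]

end Gouvea.Quat
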