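import Pool.Agent.Work.MP_d3517d_nt.Quat.Inst

/-! The theorem for orders in definite quaternion algebras, from the abstract theorem. -/

set_option autoImplicit false

open Quaternion Filter Topology MeasureTheory

noncomputable section

namespace Gouvea.Quat

variable {p : ℕ} [Fact p.Prime]

/-- The conclusion: finiteness and stability of the spaces of forms at `m`, integrality of the
eigenvalues of `T_p`, and weak convergence of the distributions of the normalised slopes to the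
Lebesgue measure on `[0, 1]`. -/
def Concl (Ω : Type) [MulAction (G p) Ω] (R : Type) [CommRing R]
    (act : R →+* Module.End ℤ_[p] (Ω →₀ ℤ_[p])) (m : Ideal R) : Prop :=
  (∀ n, Even n → (∀ f ∈ FormsAt act m n, heckeT Ω n f ∈ FormsAt act m n) ∧
    Module.Finite ℚ_[p] (FormsAt act m n) ∧
    ∀ l ∈ eigs (heckeT Ω n) (FormsAt act m n), ‖l‖ ≤ 1) ∧
  ∃ (μ : ℕ → ProbabilityMeasure ENNReal) (ν : ProbabilityMeasure ENNReal),
    (∀ᶠ T in atTop, (μ T : Measure ENNReal) = unif (slopes act m T)) ∧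
    (ν : Measure ENNReal) = (volume.restrict (Set.Icc (0 : ℝ) 1)).map ENNReal.ofReal ∧
    Tendsto μ atTop (𝓝 ν)

variable (p) in
/-- The abstract theorem. -/
def Abstract : Prop :=
  ∀ (Ω : Type) [MulAction (G p) Ω], (∀ k ∈ K p, ∀ x : Ω, k • x = x → k = 1 ∨ k = -1) →
    Finite (MulAction.orbitRel.Quotient (K p) Ω) → (∀ x : Ω, scal p • x = x) →
    ∀ (R : Type) [CommRing R] (act : R →+* Module.End ℤ_[p] (Ω →₀ ℤ_[p])),
    (∀ t, Equivariant (act t)) → ∀ (m : Ideal R), (∃ n, Even n ∧ FormsAt act m n ≠ ⊥) →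
    Concl Ω R act m

/-- The conclusion passes from `Ω'` to `Ω` along a covering of degree prime to `p`. -/
lemma concl_of_cover {Ω' Ω : Type} [MulAction (G p) Ω'] [MulAction (G p) Ω] (C : Cover p Ω' Ω)
    {R : Type} [CommRing R] (act : R →+* Module.End ℤ_[p] (Ω →₀ ℤ_[p])) (m : Ideal R)
    (h : Concl Ω' (R × ℤ_[p]) (C.act' act) (Cover.ideal' m)) : Concl Ω R act m := by
  obtain ⟨h1, μ, ν, h2, h3, h4⟩ := h
  refine ⟨fun n hn => ?_, μ, ν, ?_, h3, h4⟩
  · obtain ⟨a1, a2, a3⟩ := h1 n hn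
    refine ⟨(C.stable_iff act m n).1 a1, (C.finite_iff act m n).1 a2, fun l hl => a3 l ?_⟩
    rw [C.eigs_eq act m n]; exact hl
  · refine h2.mono fun T hT => ?_
    rw [hT, C.slopes_eq act m T]

lemma exists_mod (p : ℕ) [Fact p.Prime] : ∃ M : ℕ, GoodMod M ∧ IsCoprime (p : ℤ) (M : ℤ) := by
  have hpp := (Fact.out : p.Prime)
  by_cases h : p = 3
  · refine ⟨4, goodMod_four, ?_⟩
    rw [h]
    norm_num
  · refine ⟨3, goodMod_three, ?_⟩
    have : Nat.Coprime p 3 := (Nat.coprime_primes hpp Nat.prime_three).2 h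
    exact Nat.isCoprime_iff_coprime.2 this

theorem quat_of (H : Abstract p) (d : Datum p) (hT : NoTors d)
    (hF : ∃ F : Finset (G p), ∀ g : G p, ∃ k ∈ K p, ∃ f ∈ F, ∃ γ ∈ Gam d, g = k * f * γ)
    {R : Type} [CommRing R] (act : R →+* Module.End ℤ_[p] ((G p ⧸ Gam d) →₀ ℤ_[p]))
    (hact : ∀ t, Equivariant (act t)) (m : Ideal R)
    (hm : ∃ n, Even n ∧ FormsAt act m n ≠ ⊥) : Concl (G p ⧸ Gam d) R act m := by
  obtain ⟨M, hM, hp⟩ := exists_mod p
  let C := coverGam d hM hp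
  refine concl_of_cover C act m (H _ (hstab_Gam1 hM hp hT) (horb_Gam1 hM hp hF)
    (hscal_Gam1 hM hp) _ (C.act' act) (fun t => C.act'_equivariant act hact t) _ ?_)
  obtain ⟨n, hn, hne⟩ := hm
  refine ⟨n, hn, fun h => hne ?_⟩
  rw [C.formsAt_eq_bot_iff] at h
  exact h

end Gouvea.Quat
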