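import Pool.Agent.Work.MP_d3517d_nt.Quat.Stab

/-! For `p ≥ 5` a definite quaternion algebra has no torsion of order `p` modulo `± 1`. -/

set_option autoImplicit false

open Quaternion Polynomial

noncomputable section

namespace Gouvea.Quat

variable {p : ℕ} [Fact p.Prime] {d : Datum p}

lemma nrd_pow (x : ℍ[ℚ,d.a,d.b]) (n : ℕ) : nrd (x ^ n) = nrd x ^ n := by
  induction n with
  | zero => rw [pow_zero, pow_zero, nrd_one]
  | succ n ih => rw [pow_succ, nrd_mul, ih, pow_succ]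

lemma eq_coe_of_nrd_sub {x : ℍ[ℚ,d.a,d.b]} {c : ℚ} (h : nrd x - c * trd x + c ^ 2 = 0) :
    x = (c : ℍ[ℚ,d.a,d.b]) := by
  have h1 : nrd (x - (c : ℍ[ℚ,d.a,d.b])) = 0 := by rw [nrd_sub_coe]; exact h
  exact sub_eq_zero.1 (eq_zero_of_nrd d.ha d.hb h1)

theorem noTors_of_five_le (hp : 5 ≤ p) : NoTors d := by
  intro x hx
  have hpp := (Fact.out : p.Prime)
  have h2p : x ^ (2 * p) = 1 := by
    rw [mul_comm, pow_mul]
    rcases hx with h | h <;> rw [h] <;> simp
  have hp0 : 2 * p ≠ 0 := by omega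
  have hnn := nrd_nonneg d.ha d.hb x
  have hn1 : nrd x = 1 := by
    have h1 : nrd x ^ (2 * p) = 1 := by rw [← nrd_pow, h2p, nrd_one]
    exact (pow_eq_one_iff_of_nonneg hnn hp0).1 h1
  obtain ⟨t, n, ht, -⟩ := integral_trd_nrd (x := x) (f := X ^ (2 * p) - 1)
    (by
      have := monic_X_pow_sub_C (1 : ℤ) hp0
      rwa [C_1] at this)
    (by rw [map_sub, map_pow, aeval_X, map_one, h2p, sub_self])
  have hq : x * x = (t : ℍ[ℚ,d.a,d.b]) * x - 1 := by
    rw [mul_self_eq, ht, hn1, ← QuaternionAlgebra.coe_mul_eq_smul, QuaternionAlgebra.coe_intCast]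
    rfl
  have hlo : (-2 : ℤ) ≤ t := by
    have h1 := nrd_nonneg d.ha d.hb (x - (((-1 : ℚ)) : ℍ[ℚ,d.a,d.b]))
    rw [nrd_sub_coe, hn1, ht] at h1
    have : (0 : ℚ) ≤ 2 + t := by linarith
    have : (0 : ℤ) ≤ 2 + t := by exact_mod_cast this
    linarith
  have hhi : t ≤ 2 := by
    have h1 := nrd_nonneg d.ha d.hb (x - (((1 : ℚ)) : ℍ[ℚ,d.a,d.b]))
    rw [nrd_sub_coe, hn1, ht] at h1
    have : (0 : ℚ) ≤ 2 - t := by linarith
    have : (0 : ℤ) ≤ 2 - t := by exact_mod_cast this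
    linarith
  have hcase : t = 2 ∨ t = -2 ∨ t = 0 ∨ t = 1 ∨ t = -1 := by omega
  have fin : x ^ 12 = 1 → x = 1 ∨ x = -1 := by
    intro h12
    have h1 : orderOf x ∣ 12 := orderOf_dvd_of_pow_eq_one h12
    have h2 : orderOf x ∣ 2 * p := orderOf_dvd_of_pow_eq_one h2p
    have hg : Nat.gcd 12 (2 * p) = 2 := by
      have hc : Nat.Coprime 6 p := by
        have h2 : Nat.Coprime 2 p := (Nat.coprime_primes Nat.prime_two hpp).2 (by omega)
        have h3 : Nat.Coprime 3 p := (Nat.coprime_primes Nat.prime_three hpp).2 (by omega)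
        exact Nat.Coprime.mul_left h2 h3
      rw [show (12 : ℕ) = 2 * 6 from rfl, Nat.gcd_mul_left, hc]
    have h3 : orderOf x ∣ 2 := hg ▸ Nat.dvd_gcd h1 h2
    have h4 : x ^ 2 = 1 := orderOf_dvd_iff_pow_eq_one.1 h3
    have h5 : (x - 1) * (x + 1) = 0 := by
      have : (x - 1) * (x + 1) = x ^ 2 - 1 := by noncomm_ring
      rw [this, h4, sub_self]
    have h6 : nrd (x - 1) * nrd (x + 1) = 0 := by rw [← nrd_mul, h5, nrd_zero]
    rcases mul_eq_zero.1 h6 with h | h
    · left; exact sub_eq_zero.1 (eq_zero_of_nrd d.ha d.hb h)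
    · right; exact eq_neg_of_add_eq_zero_left (eq_zero_of_nrd d.ha d.hb h)
  rcases hcase with h | h | h | h | h
  · left
    have := eq_coe_of_nrd_sub (x := x) (c := 1) (by rw [hn1, ht, h]; norm_num)
    rw [this]; rfl
  · right
    have := eq_coe_of_nrd_sub (x := x) (c := -1) (by rw [hn1, ht, h]; norm_num)
    rw [this]
    ext <;> simp
  · apply fin
    rw [h] at hq
    have h2 : x ^ 2 = -1 := by rw [pow_two, hq]; simp
    rw [show (12 : ℕ) = 2 * 6 from rfl, pow_mul, h2]; norm_num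
  · apply fin
    rw [h] at hq
    have h3 : x ^ 3 = -1 := by
      have : x ^ 3 = x * (x * x) := by noncomm_ring
      rw [this, hq]
      have h2 : x * ((((1 : ℤ)) : ℍ[ℚ,d.a,d.b]) * x - 1) = x * x - x := by
        push_cast; noncomm_ring
      rw [h2, hq]
      push_cast; noncomm_ring
    rw [show (12 : ℕ) = 3 * 4 from rfl, pow_mul, h3]; norm_num
  · apply fin
    rw [h] at hq
    have h3 : x ^ 3 = 1 := by
      have : x ^ 3 = x * (x * x) := by noncomm_ring
      rw [this, hq]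
      have h2 : x * ((((-1 : ℤ)) : ℍ[ℚ,d.a,d.b]) * x - 1) = -(x * x) - x := by
        push_cast; noncomm_ring
      rw [h2, hq]
      push_cast; noncomm_ring
    rw [show (12 : ℕ) = 3 * 4 from rfl, pow_mul, h3]; norm_num

end Gouvea.Quat
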