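import Mathlib

/-! Orders in definite quaternion algebras over `ℚ` and their embeddings into `M₂(ℚ_p)`. -/

set_option autoImplicit false

open Quaternion Polynomial

noncomputable section

namespace Gouvea.Quat

variable {a b : ℚ}

/-- The reduced norm of the quaternion algebra `(a, b)_ℚ`. -/
def nrd (x : ℍ[ℚ,a,b]) : ℚ := x.re ^ 2 - a * x.imI ^ 2 - b * x.imJ ^ 2 + a * b * x.imK ^ 2

/-- The reduced trace of the quaternion algebra `(a, b)_ℚ`. -/
def trd (x : ℍ[ℚ,a,b]) : ℚ := 2 * x.re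

lemma nrd_mul (x y : ℍ[ℚ,a,b]) : nrd (x * y) = nrd x * nrd y := by
  simp only [nrd, QuaternionAlgebra.re_mul, QuaternionAlgebra.imI_mul, QuaternionAlgebra.imJ_mul,
    QuaternionAlgebra.imK_mul]
  ring

lemma nrd_one : nrd (1 : ℍ[ℚ,a,b]) = 1 := by simp [nrd]

lemma nrd_zero : nrd (0 : ℍ[ℚ,a,b]) = 0 := by simp [nrd]

lemma nrd_coe (q : ℚ) : nrd ((q : ℚ) : ℍ[ℚ,a,b]) = q ^ 2 := by simp [nrd]

lemma trd_coe (q : ℚ) : trd ((q : ℚ) : ℍ[ℚ,a,b]) = 2 * q := by simp [trd]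

lemma nrd_neg (x : ℍ[ℚ,a,b]) : nrd (-x) = nrd x := by simp [nrd]

lemma nrd_star (x : ℍ[ℚ,a,b]) : nrd (star x) = nrd x := by simp [nrd]

lemma trd_star (x : ℍ[ℚ,a,b]) : trd (star x) = trd x := by simp [trd]

lemma trd_add (x y : ℍ[ℚ,a,b]) : trd (x + y) = trd x + trd y := by simp [trd]; ring

lemma nrd_smul (q : ℚ) (x : ℍ[ℚ,a,b]) : nrd (q • x) = q ^ 2 * nrd x := by
  simp only [nrd, QuaternionAlgebra.re_smul, QuaternionAlgebra.imI_smul,
    QuaternionAlgebra.imJ_smul, QuaternionAlgebra.imK_smul, smul_eq_mul]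
  ring

lemma trd_smul (q : ℚ) (x : ℍ[ℚ,a,b]) : trd (q • x) = q * trd x := by
  simp only [trd, QuaternionAlgebra.re_smul, smul_eq_mul]
  ring

/-- `nrd (x - c) = nrd x - c trd x + c²`. -/
lemma nrd_sub_coe (x : ℍ[ℚ,a,b]) (c : ℚ) :
    nrd (x - (c : ℍ[ℚ,a,b])) = nrd x - c * trd x + c ^ 2 := by
  simp only [nrd, trd, QuaternionAlgebra.re_sub, QuaternionAlgebra.imI_sub,
    QuaternionAlgebra.imJ_sub, QuaternionAlgebra.imK_sub, QuaternionAlgebra.re_coe,
    QuaternionAlgebra.imI_coe, QuaternionAlgebra.imJ_coe, QuaternionAlgebra.imK_coe]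
  ring

/-- parallelogram law (as an inequality) -/
lemma nrd_add_le (ha : a < 0) (hb : b < 0) (x y : ℍ[ℚ,a,b]) :
    nrd (x + y) ≤ 2 * nrd x + 2 * nrd y := by
  simp only [nrd, QuaternionAlgebra.re_add, QuaternionAlgebra.imI_add,
    QuaternionAlgebra.imJ_add, QuaternionAlgebra.imK_add]
  have hab : 0 < a * b := mul_pos_of_neg_of_neg ha hb
  nlinarith [sq_nonneg (x.re - y.re), mul_nonneg (neg_nonneg.2 ha.le) (sq_nonneg (x.imI - y.imI)),
    mul_nonneg (neg_nonneg.2 hb.le) (sq_nonneg (x.imJ - y.imJ)),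
    mul_nonneg hab.le (sq_nonneg (x.imK - y.imK))]

lemma nrd_nonneg (ha : a < 0) (hb : b < 0) (x : ℍ[ℚ,a,b]) : 0 ≤ nrd x := by
  have hab : 0 < a * b := mul_pos_of_neg_of_neg ha hb
  have h1 := mul_nonneg (neg_nonneg.2 ha.le) (sq_nonneg x.imI)
  have h2 := mul_nonneg (neg_nonneg.2 hb.le) (sq_nonneg x.imJ)
  have h3 := mul_nonneg hab.le (sq_nonneg x.imK)
  have h4 := sq_nonneg x.re
  rw [nrd]
  linarith

lemma eq_zero_of_nrd (ha : a < 0) (hb : b < 0) {x : ℍ[ℚ,a,b]} (h : nrd x = 0) : x = 0 := by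
  have hab : 0 < a * b := mul_pos_of_neg_of_neg ha hb
  have h1 := mul_nonneg (neg_nonneg.2 ha.le) (sq_nonneg x.imI)
  have h2 := mul_nonneg (neg_nonneg.2 hb.le) (sq_nonneg x.imJ)
  have h3 := mul_nonneg hab.le (sq_nonneg x.imK)
  have h4 := sq_nonneg x.re
  rw [nrd] at h
  have e1 : x.re ^ 2 = 0 := by linarith
  have e2 : -a * x.imI ^ 2 = 0 := by linarith
  have e3 : -b * x.imJ ^ 2 = 0 := by linarith
  have e4 : a * b * x.imK ^ 2 = 0 := by linarith
  ext
  · exact pow_eq_zero_iff (two_ne_zero) |>.1 e1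
  · exact pow_eq_zero_iff (two_ne_zero) |>.1 ((mul_eq_zero.1 e2).resolve_left (by linarith))
  · exact pow_eq_zero_iff (two_ne_zero) |>.1 ((mul_eq_zero.1 e3).resolve_left (by linarith))
  · exact pow_eq_zero_iff (two_ne_zero) |>.1 ((mul_eq_zero.1 e4).resolve_left hab.ne')

lemma mul_star_self (x : ℍ[ℚ,a,b]) : x * star x = ((nrd x : ℚ) : ℍ[ℚ,a,b]) := by
  ext
  · rw [QuaternionAlgebra.re_coe, nrd]; simp; ring
  · rw [QuaternionAlgebra.imI_coe]; simp; ring
  · rw [QuaternionAlgebra.imJ_coe]; simp; ring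
  · rw [QuaternionAlgebra.imK_coe]; simp; ring

lemma star_mul_self (x : ℍ[ℚ,a,b]) : star x * x = ((nrd x : ℚ) : ℍ[ℚ,a,b]) := by
  ext
  · rw [QuaternionAlgebra.re_coe, nrd]; simp; ring
  · rw [QuaternionAlgebra.imI_coe]; simp; ring
  · rw [QuaternionAlgebra.imJ_coe]; simp; ring
  · rw [QuaternionAlgebra.imK_coe]; simp; ring

lemma star_eq (x : ℍ[ℚ,a,b]) : star x = ((trd x : ℚ) : ℍ[ℚ,a,b]) - x := by
  ext
  · rw [QuaternionAlgebra.re_sub, QuaternionAlgebra.re_coe, trd]; simp; ring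
  · rw [QuaternionAlgebra.imI_sub, QuaternionAlgebra.imI_coe]; simp
  · rw [QuaternionAlgebra.imJ_sub, QuaternionAlgebra.imJ_coe]; simp
  · rw [QuaternionAlgebra.imK_sub, QuaternionAlgebra.imK_coe]; simp

/-- the quadratic equation -/
lemma mul_self_eq (x : ℍ[ℚ,a,b]) :
    x * x = (trd x) • x - ((nrd x : ℚ) : ℍ[ℚ,a,b]) := by
  ext
  · rw [QuaternionAlgebra.re_sub, QuaternionAlgebra.re_coe, nrd, trd]; simp; ring
  · rw [QuaternionAlgebra.imI_sub, QuaternionAlgebra.imI_coe, trd]; simp; ring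
  · rw [QuaternionAlgebra.imJ_sub, QuaternionAlgebra.imJ_coe, trd]; simp; ring
  · rw [QuaternionAlgebra.imK_sub, QuaternionAlgebra.imK_coe, trd]; simp; ring

/-- An order of a definite quaternion algebra `(a, b)_ℚ`, with a splitting at `p` which identifies
its completion with `M₂(ℤ_p)`. -/
structure Datum (p : ℕ) [Fact p.Prime] where
  /-- `i² = a` -/
  a : ℚ
  /-- `j² = b` -/
  b : ℚ
  ha : a < 0
  hb : b < 0
  /-- the order -/
  O : Subring ℍ[ℚ,a,b]
  fg : O.toAddSubgroup.FG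
  /-- the splitting at `p` -/
  ι : ℍ[ℚ,a,b] →+* Matrix (Fin 2) (Fin 2) ℚ_[p]
  int : ∀ x ∈ O, ∀ i j, ‖ι x i j‖ ≤ 1
  surj : ∀ M : Matrix (Fin 2) (Fin 2) ℚ_[p], (∀ i j, ‖M i j‖ ≤ 1) →
    ∃ x ∈ O, ∀ i j, ‖(ι x - M) i j‖ < 1

section integral

lemma aeval_quad (x : ℍ[ℚ,a,b]) :
    aeval x (X ^ 2 - C (trd x) * X + C (nrd x) : ℚ[X]) = 0 := by
  rw [map_add, map_sub, map_pow, map_mul, aeval_X, aeval_C, aeval_C, pow_two, mul_self_eq,
    QuaternionAlgebra.coe_algebraMap, QuaternionAlgebra.coe_mul_eq_smul]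
  abel

/-- Elements which are integral over `ℤ` have integral reduced trace and norm. -/
lemma integral_trd_nrd {x : ℍ[ℚ,a,b]} {f : ℤ[X]} (hf : f.Monic) (h0 : aeval x f = 0) :
    ∃ t n : ℤ, trd x = t ∧ nrd x = n := by
  classical
  let F : ℚ[X] := f.map (algebraMap ℤ ℚ)
  let q : ℚ[X] := X ^ 2 - C (trd x) * X + C (nrd x)
  have hF0 : aeval x F = 0 := by
    rw [← h0]
    exact aeval_map_algebraMap ℚ x f
  have hq : q = X ^ 2 + (-C (trd x) * X + C (nrd x)) := by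
    simp only [q]; ring
  have hdeg : (-C (trd x) * X + C (nrd x) : ℚ[X]).degree < 2 := by
    have : (-C (trd x) * X + C (nrd x) : ℚ[X]) = C (-trd x) * X + C (nrd x) := by
      rw [C_neg]
    rw [this]
    exact lt_of_le_of_lt degree_linear_le (by norm_num)
  have hqm : q.Monic := by
    rw [hq]
    exact monic_X_pow_add (by simpa using hdeg)
  have hqd : q.degree = 2 := by
    rw [hq, degree_add_eq_left_of_degree_lt (by rw [degree_X_pow]; exact_mod_cast hdeg),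
      degree_X_pow]
    rfl
  have hmod : aeval x (F %ₘ q) = 0 := by
    have := modByMonic_add_div F q
    have h2 := congrArg (aeval x) this
    rw [map_add, map_mul, hF0, show aeval x q = 0 from aeval_quad x, zero_mul, add_zero] at h2
    exact h2
  have hqn : q.natDegree = 2 := natDegree_eq_of_degree_eq_some hqd
  have hlt : (F %ₘ q).natDegree < 2 := by
    rw [← hqn]
    refine natDegree_modByMonic_lt _ hqm ?_
    intro h1
    rw [h1, natDegree_one] at hqn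
    omega
  have hle : (F %ₘ q).degree ≤ 1 := degree_le_of_natDegree_le (Nat.le_of_lt_succ hlt)
  obtain ⟨c, d, hcd⟩ : ∃ c d : ℚ, F %ₘ q = C c * X + C d :=
    ⟨_, _, eq_X_add_C_of_degree_le_one hle⟩
  rw [hcd, map_add, map_mul, aeval_X, aeval_C, aeval_C, QuaternionAlgebra.coe_algebraMap,
    QuaternionAlgebra.coe_mul_eq_smul] at hmod
  by_cases hc : c = 0
  · -- then `q` divides `F`
    rw [hc, zero_smul, zero_add] at hmod
    have hd : d = 0 := by
      have := congrArg QuaternionAlgebra.re hmod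
      simpa using this
    have hdvd : q ∣ F := by
      rw [← modByMonic_eq_zero_iff_dvd hqm, hcd, hc, hd]; simp
    obtain ⟨g, hg⟩ := IsIntegrallyClosed.eq_map_mul_C_of_dvd ℚ hf hdvd
    rw [hqm.leadingCoeff, C_1, mul_one] at hg
    refine ⟨-g.coeff 1, g.coeff 0, ?_, ?_⟩
    · have := congrArg (fun r : ℚ[X] => r.coeff 1) hg
      simp [q] at this
      push_cast
      linarith
    · have := congrArg (fun r : ℚ[X] => r.coeff 0) hg
      simp [q] at this
      linarith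
  · -- `x` is rational
    have hx : x = ((-(d / c) : ℚ) : ℍ[ℚ,a,b]) := by
      have h1 : c • x = -((d : ℚ) : ℍ[ℚ,a,b]) := eq_neg_of_add_eq_zero_left hmod
      have h2 : x = c⁻¹ • (c • x) := by rw [smul_smul, inv_mul_cancel₀ hc, one_smul]
      rw [h2, h1]
      ext <;> simp
      field_simp
    set r : ℚ := -(d / c) with hr
    have hr0 : aeval r f = 0 := by
      have h1 : aeval (algebraMap ℚ ℍ[ℚ,a,b] r) f = algebraMap ℚ ℍ[ℚ,a,b] (aeval r f) := by
        rw [aeval_algebraMap_apply]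
      have h2 : algebraMap ℚ ℍ[ℚ,a,b] r = x := by
        rw [QuaternionAlgebra.coe_algebraMap, hx]
      rw [h2, h0] at h1
      exact (QuaternionAlgebra.algebraMap_injective (R := ℚ)
        (by rw [← h1, map_zero] : algebraMap ℚ ℍ[ℚ,a,b] (aeval r f) = algebraMap ℚ ℍ[ℚ,a,b] 0))
    have hint : IsIntegral ℤ r := ⟨f, hf, hr0⟩
    obtain ⟨m, hm⟩ := IsIntegrallyClosed.isIntegral_iff.1 hint
    have hm' : r = m := by rw [← hm]; rfl
    refine ⟨2 * m, m ^ 2, ?_, ?_⟩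
    · rw [hx, trd_coe, hm']; push_cast; ring
    · rw [hx, nrd_coe, hm']; push_cast; ring

end integral

variable {p : ℕ} [Fact p.Prime] (d : Datum p)

namespace Datum

lemma moduleFinite : Module.Finite ℤ d.O := by
  have h1 : AddGroup.FG d.O.toAddSubgroup := (AddGroup.fg_iff_addSubgroup_fg _).2 d.fg
  exact Module.Finite.iff_addGroup_fg.2 h1

variable {d}

lemma int_of_mem {x : ℍ[ℚ,d.a,d.b]} (hx : x ∈ d.O) : ∃ t n : ℤ, trd x = t ∧ nrd x = n := by
  have := d.moduleFinite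
  obtain ⟨f, hf, h0⟩ : IsIntegral ℤ (⟨x, hx⟩ : d.O) := IsIntegral.of_finite ℤ _
  refine integral_trd_nrd hf ?_
  have h1 : aeval (⟨x, hx⟩ : d.O) f = 0 := h0
  have h2 := congrArg (fun z : d.O => (z : ℍ[ℚ,d.a,d.b])) h1
  have h3 : aeval x f = ((aeval (⟨x, hx⟩ : d.O) f : d.O) : ℍ[ℚ,d.a,d.b]) := by
    have := aeval_algHom_apply (d.O.subtype.toIntAlgHom) (⟨x, hx⟩ : d.O) f
    exact this
  rw [h3, h1]; rfl

/-- the reduced norm of an element of the order as a natural number -/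
lemma exists_norm {x : ℍ[ℚ,d.a,d.b]} (hx : x ∈ d.O) : ∃ n : ℕ, nrd x = n := by
  obtain ⟨_, n, _, hn⟩ := int_of_mem hx
  have h := nrd_nonneg d.ha d.hb x
  rw [hn] at h
  have h3 : (0 : ℤ) ≤ n := by exact_mod_cast h
  obtain ⟨m, hm⟩ := Int.eq_ofNat_of_zero_le h3
  exact ⟨m, by rw [hn, hm]; rfl⟩

lemma intCast_coe (m : ℤ) : (((m : ℚ)) : ℍ[ℚ,d.a,d.b]) ∈ d.O := by
  have : (((m : ℚ)) : ℍ[ℚ,d.a,d.b]) = (m : ℍ[ℚ,d.a,d.b]) := by
    rw [QuaternionAlgebra.coe_intCast]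
  rw [this]; exact intCast_mem d.O m

lemma star_mem {x : ℍ[ℚ,d.a,d.b]} (hx : x ∈ d.O) : star x ∈ d.O := by
  obtain ⟨t, _, ht, _⟩ := int_of_mem hx
  rw [star_eq, ht]
  exact d.O.sub_mem (intCast_coe t) hx

variable (d)

/-- The splitting is `ℚ`-linear. -/
lemma iota_smul (q : ℚ) (x : ℍ[ℚ,d.a,d.b]) : d.ι (q • x) = (q : ℚ_[p]) • d.ι x := by
  have h1 := map_smul (d.ι.toRatAlgHom) q x
  have h2 : (q : ℚ) • d.ι x = (q : ℚ_[p]) • d.ι x := by
    ext i j
    rw [Matrix.smul_apply, Matrix.smul_apply, smul_eq_mul, Rat.smul_def]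
  rw [← h2]; exact h1

lemma iota_coe (q : ℚ) : d.ι ((q : ℚ) : ℍ[ℚ,d.a,d.b]) = (q : ℚ_[p]) • 1 := by
  have : ((q : ℚ) : ℍ[ℚ,d.a,d.b]) = q • 1 := by
    ext <;> simp
  rw [this, iota_smul, map_one]

/-- The trace of the splitting is the reduced trace. -/
lemma iota_trace (x : ℍ[ℚ,d.a,d.b]) : (d.ι x).trace = (trd x : ℚ) := by
  have ha := d.ha
  have hb := d.hb
  let i : ℍ[ℚ,d.a,d.b] := ⟨0, 1, 0, 0⟩
  let j : ℍ[ℚ,d.a,d.b] := ⟨0, 0, 1, 0⟩
  let k : ℍ[ℚ,d.a,d.b] := ⟨0, 0, 0, 1⟩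
  have comm0 : ∀ u v : ℍ[ℚ,d.a,d.b], (d.ι (u * v - v * u)).trace = 0 := by
    intro u v
    rw [map_sub, map_mul, map_mul, Matrix.trace_sub, Matrix.trace_mul_comm, sub_self]
  have ti : (d.ι i).trace = 0 := by
    have hb0 : d.b ≠ 0 := hb.ne
    have : i = (-(1 / (2 * d.b)) : ℚ) • (j * k - k * j) := by
      ext <;> simp [i, j, k]
      field_simp
      norm_num
    rw [this, iota_smul, Matrix.trace_smul, comm0, smul_zero]
  have tj : (d.ι j).trace = 0 := by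
    have ha0 : d.a ≠ 0 := ha.ne
    have : j = (-(1 / (2 * d.a)) : ℚ) • (k * i - i * k) := by
      ext <;> simp [i, j, k]
      field_simp
      norm_num
    rw [this, iota_smul, Matrix.trace_smul, comm0, smul_zero]
  have tk : (d.ι k).trace = 0 := by
    have : k = ((1 / 2) : ℚ) • (i * j - j * i) := by
      ext <;> simp [i, j, k]
      norm_num
    rw [this, iota_smul, Matrix.trace_smul, comm0, smul_zero]
  have hx : x = ((x.re : ℚ) : ℍ[ℚ,d.a,d.b]) + (x.imI • i + (x.imJ • j + x.imK • k)) := by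
    ext <;> simp [i, j, k]
  conv_lhs => rw [hx]
  rw [map_add, map_add, map_add, iota_smul, iota_smul, iota_smul, iota_coe, Matrix.trace_add,
    Matrix.trace_add, Matrix.trace_add, Matrix.trace_smul, Matrix.trace_smul, Matrix.trace_smul,
    Matrix.trace_smul, ti, tj, tk, Matrix.trace_one]
  simp [trd]
  ring

/-- The determinant of the splitting is the reduced norm. -/
lemma iota_det (x : ℍ[ℚ,d.a,d.b]) : (d.ι x).det = (nrd x : ℚ) := by
  have h1 := iota_trace d x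
  have h2 := iota_trace d (x * x)
  rw [map_mul] at h2
  have h3 : trd (x * x) = trd x ^ 2 - 2 * nrd x := by
    simp [trd, nrd]; ring
  rw [h3] at h2
  rw [Matrix.trace_fin_two] at h1 h2
  rw [Matrix.mul_apply, Matrix.mul_apply, Fin.sum_univ_two, Fin.sum_univ_two] at h2
  rw [Matrix.det_fin_two]
  push_cast at h2
  have h4 : (2 : ℚ_[p]) * (d.ι x 0 0 * d.ι x 1 1 - d.ι x 0 1 * d.ι x 1 0) =
      2 * ((nrd x : ℚ) : ℚ_[p]) := by
    have h5 : ((trd x : ℚ) : ℚ_[p]) ^ 2 = (d.ι x 0 0 + d.ι x 1 1) ^ 2 := by rw [h1]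
    linear_combination -h5 - h2
  exact mul_left_cancel₀ two_ne_zero h4

lemma iota_injective : Function.Injective d.ι := by
  rw [injective_iff_map_eq_zero]
  intro x hx
  apply eq_zero_of_nrd d.ha d.hb
  have h := iota_det d x
  rw [hx, Matrix.det_zero] at h
  · exact_mod_cast h.symm

end Datum

end Gouvea.Quat
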