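import Pool.Agent.Work.MP_d3517d_nt.Quat.Basic

/-! Finiteness of the class number, part A: density and approximation. -/

set_option autoImplicit false

open Quaternion Polynomial Finset

noncomputable section

namespace Gouvea.Quat

variable {p : ℕ} [Fact p.Prime]

/-- integral matrices as matrices over `ℚ_p` -/
def mz (p : ℕ) [Fact p.Prime] :
    Matrix (Fin 2) (Fin 2) ℤ_[p] →+* Matrix (Fin 2) (Fin 2) ℚ_[p] :=
  (PadicInt.Coe.ringHom (p := p)).mapMatrix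

lemma mz_apply (B : Matrix (Fin 2) (Fin 2) ℤ_[p]) (i j : Fin 2) :
    mz p B i j = ((B i j : ℤ_[p]) : ℚ_[p]) := rfl

lemma exists_mz {M : Matrix (Fin 2) (Fin 2) ℚ_[p]} (h : ∀ i j, ‖M i j‖ ≤ 1) :
    ∃ B, mz p B = M :=
  ⟨fun i j => ⟨M i j, h i j⟩, by ext i j; rfl⟩

lemma norm_mz_le (B : Matrix (Fin 2) (Fin 2) ℤ_[p]) (i j : Fin 2) : ‖mz p B i j‖ ≤ 1 :=
  PadicInt.norm_le_one (B i j)

lemma mz_injective : Function.Injective (mz p) := by
  intro A B h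
  funext i j
  exact Subtype.ext (congrFun (congrFun h i) j)

lemma exists_p_smul {M : Matrix (Fin 2) (Fin 2) ℚ_[p]} (h : ∀ i j, ‖M i j‖ < 1) :
    ∃ B, M = (p : ℚ_[p]) • mz p B := by
  have h1 : ∀ i j, ∃ b : ℤ_[p], M i j = (p : ℚ_[p]) * (b : ℚ_[p]) := by
    intro i j
    obtain ⟨m, hm⟩ : ∃ m : ℤ_[p], (m : ℚ_[p]) = M i j := ⟨⟨M i j, (h i j).le⟩, rfl⟩
    have h2 : ‖m‖ < 1 := by
      have := h i j
      rwa [← hm] at this
    rw [PadicInt.norm_lt_one_iff_dvd] at h2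
    obtain ⟨b, hb⟩ := h2
    refine ⟨b, ?_⟩
    have h3 := congrArg (fun x : ℤ_[p] => (x : ℚ_[p])) hb
    simp only [PadicInt.coe_mul, PadicInt.coe_natCast] at h3
    rw [← hm]
    exact h3
  choose b hb using h1
  refine ⟨Matrix.of b, ?_⟩
  funext i j
  exact hb i j

variable (d : Datum p)

/-- the order is dense in `M₂(ℤ_p)` -/
lemma cl_dense (B : Matrix (Fin 2) (Fin 2) ℤ_[p]) (n : ℕ) :
    ∃ x ∈ d.O, ∃ E, d.ι x = mz p B + ((p : ℚ_[p]) ^ n) • mz p E := by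
  induction n with
  | zero =>
    refine ⟨0, d.O.zero_mem, -B, ?_⟩
    rw [map_zero, pow_zero, one_smul, map_neg, add_neg_cancel]
  | succ n ih =>
    obtain ⟨x, hx, E, hE⟩ := ih
    obtain ⟨y, hy, hy2⟩ := d.surj (mz p (-E)) (norm_mz_le (-E))
    obtain ⟨E', hE'⟩ := exists_p_smul hy2
    have hy3 : d.ι y = -mz p E + (p : ℚ_[p]) • mz p E' := by
      rw [← hE', map_neg]; abel
    refine ⟨x + ((p ^ n : ℕ) : ℤ) • y, d.O.add_mem hx (d.O.zsmul_mem hy _), E', ?_⟩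
    have h1 : d.ι (((p ^ n : ℕ) : ℤ) • y) = ((p : ℚ_[p]) ^ n) • d.ι y := by
      rw [map_zsmul]
      ext i j
      rw [Matrix.smul_apply, Matrix.smul_apply, zsmul_eq_mul, smul_eq_mul]
      push_cast
      rfl
    rw [map_add, h1, hE, hy3, smul_add, smul_neg, smul_smul, ← pow_succ]
    abel

/-- there is a `ℚ`-basis of the algebra inside the order. -/
lemma cl_basis : ∃ w : Fin 2 × Fin 2 → ℍ[ℚ,d.a,d.b], (∀ s, w s ∈ d.O) ∧
    ∀ z, ∃ c : Fin 2 × Fin 2 → ℚ, z = ∑ s, c s • w s := by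
  have h1 : ∀ s : Fin 2 × Fin 2, ∃ x ∈ d.O, ∃ E, d.ι x =
      mz p (Matrix.single s.1 s.2 1) + ((p : ℚ_[p]) ^ 1) • mz p E :=
    fun s => cl_dense d _ 1
  choose w hw E hE using h1
  refine ⟨w, hw, ?_⟩
  have hli : LinearIndependent ℚ w := by
    rw [Fintype.linearIndependent_iff]
    intro c hc
    by_contra hcon
    push Not at hcon
    obtain ⟨s0, hs0⟩ := hcon
    obtain ⟨m, _, hm⟩ := Finset.exists_max_image (univ : Finset (Fin 2 × Fin 2))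
      (fun s => ‖((c s : ℚ) : ℚ_[p])‖) ⟨s0, mem_univ _⟩
    have hmpos : 0 < ‖((c m : ℚ) : ℚ_[p])‖ := by
      refine lt_of_lt_of_le ?_ (hm s0 (mem_univ _))
      rw [norm_pos_iff]
      exact_mod_cast hs0
    have h2 := congrArg d.ι hc
    rw [map_zero, map_sum] at h2
    have h3 := congrFun (congrFun h2 m.1) m.2
    rw [Matrix.sum_apply] at h3
    have h4 : ∀ s, d.ι (c s • w s) m.1 m.2 = ((c s : ℚ) : ℚ_[p]) * (if s = m then 1 else 0) +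
        (p : ℚ_[p]) * (((c s : ℚ) : ℚ_[p]) * mz p (E s) m.1 m.2) := by
      intro s
      rw [Datum.iota_smul, hE, Matrix.smul_apply, Matrix.add_apply, Matrix.smul_apply, mz_apply,
        smul_eq_mul, smul_eq_mul, pow_one, Matrix.single_apply]
      have : (s.1 = m.1 ∧ s.2 = m.2) ↔ s = m := Prod.ext_iff.symm
      by_cases hsm : s = m
      · rw [if_pos (this.2 hsm), if_pos hsm, PadicInt.coe_one]; ring
      · rw [if_neg (fun h => hsm (this.1 h)), if_neg hsm, PadicInt.coe_zero]; ring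
    rw [sum_congr rfl (fun s _ => h4 s), sum_add_distrib, ← mul_sum] at h3
    simp only [mul_ite, mul_one, mul_zero, sum_ite_eq', mem_univ, if_true] at h3
    have h5 : ‖((c m : ℚ) : ℚ_[p])‖ ≤ (p : ℝ)⁻¹ * ‖((c m : ℚ) : ℚ_[p])‖ := by
      have h6 : ((c m : ℚ) : ℚ_[p]) =
          -((p : ℚ_[p]) * ∑ s, ((c s : ℚ) : ℚ_[p]) * mz p (E s) m.1 m.2) :=
        eq_neg_of_add_eq_zero_left h3
      have h7 : ‖∑ s, ((c s : ℚ) : ℚ_[p]) * mz p (E s) m.1 m.2‖ ≤ ‖((c m : ℚ) : ℚ_[p])‖ := by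
        refine IsUltrametricDist.norm_sum_le_of_forall_le_of_nonneg (norm_nonneg _) fun s _ => ?_
        rw [norm_mul]
        calc _ ≤ ‖((c m : ℚ) : ℚ_[p])‖ * 1 :=
              mul_le_mul (hm s (mem_univ _)) (norm_mz_le _ _ _) (norm_nonneg _) (norm_nonneg _)
          _ = _ := mul_one _
      calc ‖((c m : ℚ) : ℚ_[p])‖ = ‖(p : ℚ_[p])‖ *
            ‖∑ s, ((c s : ℚ) : ℚ_[p]) * mz p (E s) m.1 m.2‖ := by
            rw [← norm_mul]
            conv_lhs => rw [h6]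
            rw [norm_neg]
        _ ≤ (p : ℝ)⁻¹ * ‖((c m : ℚ) : ℚ_[p])‖ := by
            rw [Padic.norm_p]
            exact mul_le_mul_of_nonneg_left h7 (by positivity)
    have hp : (1 : ℝ) < p := by exact_mod_cast (Fact.out : p.Prime).one_lt
    have h6 : (p : ℝ)⁻¹ < 1 := inv_lt_one_of_one_lt₀ hp
    nlinarith
  have hcard : Fintype.card (Fin 2 × Fin 2) = Module.finrank ℚ ℍ[ℚ,d.a,d.b] := by
    rw [QuaternionAlgebra.finrank_eq_four]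
    rfl
  have hspan := hli.span_eq_top_of_card_eq_finrank' hcard
  intro z
  have hz : z ∈ Submodule.span ℚ (Set.range w) := by rw [hspan]; exact Submodule.mem_top
  rw [Submodule.mem_span_range_iff_exists_fun] at hz
  obtain ⟨c, hc⟩ := hz
  exact ⟨c, hc.symm⟩

/-- simultaneous approximation (Dirichlet) -/
lemma cl_dirichlet (c : Fin 2 × Fin 2 → ℚ) (N : ℕ) (hN : 0 < N) :
    ∃ m : ℕ, 1 ≤ m ∧ m ≤ N ^ 4 ∧ ∃ q : Fin 2 × Fin 2 → ℤ, ∀ s,
      |(m : ℚ) * c s - q s| < 1 / N := by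
  have hNQ : (0 : ℚ) < N := by exact_mod_cast hN
  have hcell : ∀ (m : Fin (N ^ 4 + 1)) (s : Fin 2 × Fin 2),
      ⌊(N : ℚ) * Int.fract ((m : ℕ) * c s)⌋.toNat < N := by
    intro m s
    have h1 := Int.fract_nonneg (((m : ℕ) : ℚ) * c s)
    have h2 := Int.fract_lt_one (((m : ℕ) : ℚ) * c s)
    have h3 : ⌊(N : ℚ) * Int.fract ((m : ℕ) * c s)⌋ < (N : ℤ) := by
      rw [Int.floor_lt]
      push_cast
      nlinarith
    have h4 : 0 ≤ ⌊(N : ℚ) * Int.fract ((m : ℕ) * c s)⌋ :=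
      Int.floor_nonneg.2 (mul_nonneg hNQ.le h1)
    omega
  obtain ⟨m1, m2, hne, heq⟩ := Fintype.exists_ne_map_eq_of_card_lt
    (fun (m : Fin (N ^ 4 + 1)) (s : Fin 2 × Fin 2) =>
      (⟨⌊(N : ℚ) * Int.fract ((m : ℕ) * c s)⌋.toNat, hcell m s⟩ : Fin N))
    (by simp)
  wlog hlt : m1 < m2 generalizing m1 m2
  · exact this m2 m1 hne.symm heq.symm (lt_of_le_of_ne (not_lt.1 hlt) hne.symm)
  refine ⟨(m2 : ℕ) - m1, ?_, ?_, fun s => ⌊((m2 : ℕ) : ℚ) * c s⌋ - ⌊((m1 : ℕ) : ℚ) * c s⌋, ?_⟩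
  · have : (m1 : ℕ) < m2 := hlt
    omega
  · have := m2.2
    omega
  · intro s
    have h0 : (m1 : ℕ) < m2 := hlt
    have h1 := congrFun heq s
    simp only [Fin.mk.injEq] at h1
    have e1 := Int.fract_nonneg (((m1 : ℕ) : ℚ) * c s)
    have e2 := Int.fract_nonneg (((m2 : ℕ) : ℚ) * c s)
    have f1 : 0 ≤ ⌊(N : ℚ) * Int.fract (((m1 : ℕ) : ℚ) * c s)⌋ :=
      Int.floor_nonneg.2 (mul_nonneg hNQ.le e1)
    have f2 : 0 ≤ ⌊(N : ℚ) * Int.fract (((m2 : ℕ) : ℚ) * c s)⌋ :=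
      Int.floor_nonneg.2 (mul_nonneg hNQ.le e2)
    have h2 : ⌊(N : ℚ) * Int.fract (((m1 : ℕ) : ℚ) * c s)⌋ =
        ⌊(N : ℚ) * Int.fract (((m2 : ℕ) : ℚ) * c s)⌋ := by omega
    have h3 := Int.abs_sub_lt_one_of_floor_eq_floor h2
    rw [← mul_sub, abs_mul, abs_of_pos hNQ] at h3
    have h4 : ((((m2 : ℕ) - (m1 : ℕ) : ℕ) : ℚ) * c s -
        ((⌊((m2 : ℕ) : ℚ) * c s⌋ - ⌊((m1 : ℕ) : ℚ) * c s⌋ : ℤ) : ℚ)) =
        -(Int.fract (((m1 : ℕ) : ℚ) * c s) - Int.fract (((m2 : ℕ) : ℚ) * c s)) := by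
      rw [Nat.cast_sub h0.le, Int.fract, Int.fract]
      push_cast
      ring
    rw [h4, abs_neg, lt_div_iff₀ hNQ, mul_comm]
    exact h3

/-- every element is close to the order, up to a bounded multiple -/
lemma cl_approx : ∃ C : ℕ, ∀ z : ℍ[ℚ,d.a,d.b], ∃ m : ℕ, 1 ≤ m ∧ m ≤ C ∧ ∃ q ∈ d.O,
    nrd ((m : ℚ) • z - q) < 1 := by
  obtain ⟨w, hw, hspan⟩ := cl_basis d
  obtain ⟨A, hA⟩ : ∃ A : ℚ, A = ∑ s, nrd (w s) := ⟨_, rfl⟩
  have hA0 : 0 ≤ A := by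
    rw [hA]
    exact sum_nonneg fun s _ => nrd_nonneg d.ha d.hb _
  obtain ⟨N, hN⟩ : ∃ N : ℕ, 4 * A + 1 < N := exists_nat_gt _
  have hN1 : (1 : ℚ) < N := by linarith
  have hN0 : 0 < N := by
    have : (0 : ℚ) < N := by linarith
    exact_mod_cast this
  refine ⟨N ^ 4, fun z => ?_⟩
  obtain ⟨c, hc⟩ := hspan z
  obtain ⟨m, hm1, hm2, q, hq⟩ := cl_dirichlet c N hN0
  refine ⟨m, hm1, hm2, ∑ s, (q s) • w s, sum_mem fun s _ => d.O.zsmul_mem (hw s) _, ?_⟩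
  have h1 : (m : ℚ) • z - ∑ s, (q s) • w s = ∑ s, ((m : ℚ) * c s - q s) • w s := by
    rw [hc, smul_sum, ← sum_sub_distrib]
    refine sum_congr rfl fun s _ => ?_
    rw [sub_smul, smul_smul, ← Int.cast_smul_eq_zsmul ℚ]
  have h2 : ∀ v : Fin 2 × Fin 2 → ℍ[ℚ,d.a,d.b], nrd (∑ s, v s) ≤ 4 * ∑ s, nrd (v s) := by
    intro v
    rw [Fintype.sum_prod_type, Fintype.sum_prod_type]
    simp only [Fin.sum_univ_two]
    have e1 := nrd_add_le d.ha d.hb (v (0, 0) + v (0, 1)) (v (1, 0) + v (1, 1))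
    have e2 := nrd_add_le d.ha d.hb (v (0, 0)) (v (0, 1))
    have e3 := nrd_add_le d.ha d.hb (v (1, 0)) (v (1, 1))
    linarith
  have h3 : ∀ s, nrd (((m : ℚ) * c s - q s) • w s) ≤ (1 / (N : ℚ)) ^ 2 * nrd (w s) := by
    intro s
    rw [nrd_smul]
    refine mul_le_mul_of_nonneg_right ?_ (nrd_nonneg d.ha d.hb _)
    rw [← sq_abs]
    exact pow_le_pow_left₀ (abs_nonneg _) (hq s).le 2
  rw [h1]
  calc nrd (∑ s, ((m : ℚ) * c s - q s) • w s) ≤ 4 * ∑ s, nrd (((m : ℚ) * c s - q s) • w s) := h2 _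
    _ ≤ 4 * ∑ s, (1 / (N : ℚ)) ^ 2 * nrd (w s) := by
        refine mul_le_mul_of_nonneg_left (sum_le_sum fun s _ => h3 s) (by norm_num)
    _ = (4 * A) / (N : ℚ) ^ 2 := by
        rw [← mul_sum, ← hA]
        field_simp
    _ < 1 := by
        rw [div_lt_one (by positivity)]
        nlinarith

end Gouvea.Quat
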