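import Pool.Agent.Work.MP_d3517d_nt.Quat.ClassA

/-! Finiteness of the class number, part B: the left ideals of the order. -/

set_option autoImplicit false

open Quaternion Polynomial Finset

noncomputable section

namespace Gouvea.Quat

variable {p : ℕ} [Fact p.Prime] (d : Datum p)

/-- the left ideal attached to a matrix -/
def LL (g : Matrix (Fin 2) (Fin 2) ℚ_[p]) : AddSubgroup ℍ[ℚ,d.a,d.b] where
  carrier := {x | x ∈ d.O ∧ ∃ B, d.ι x = mz p B * g}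
  zero_mem' := ⟨d.O.zero_mem, 0, by rw [map_zero, map_zero, zero_mul]⟩
  add_mem' := by
    rintro x y ⟨hx, B, hB⟩ ⟨hy, B', hB'⟩
    exact ⟨d.O.add_mem hx hy, B + B', by rw [map_add, hB, hB', map_add, add_mul]⟩
  neg_mem' := by
    rintro x ⟨hx, B, hB⟩
    exact ⟨d.O.neg_mem hx, -B, by rw [map_neg, hB, map_neg, neg_mul]⟩

variable {d}

lemma LL_sub_O {g : Matrix (Fin 2) (Fin 2) ℚ_[p]} {x : ℍ[ℚ,d.a,d.b]} (hx : x ∈ LL d g) :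
    x ∈ d.O := hx.1

lemma LL_mul {g : Matrix (Fin 2) (Fin 2) ℚ_[p]} {x o : ℍ[ℚ,d.a,d.b]} (ho : o ∈ d.O)
    (hx : x ∈ LL d g) : o * x ∈ LL d g := by
  obtain ⟨hx, B, hB⟩ := hx
  obtain ⟨B', hB'⟩ := exists_mz (d.int o ho)
  exact ⟨d.O.mul_mem ho hx, B' * B, by rw [map_mul, hB, ← hB', map_mul, mul_assoc]⟩

/-- the inverse of a nonzero element -/
def dinv (x : ℍ[ℚ,d.a,d.b]) : ℍ[ℚ,d.a,d.b] := (nrd x)⁻¹ • star x

lemma mul_dinv {x : ℍ[ℚ,d.a,d.b]} (hx : x ≠ 0) : x * dinv x = 1 := by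
  have h : nrd x ≠ 0 := fun h => hx (eq_zero_of_nrd d.ha d.hb h)
  rw [dinv, mul_smul_comm, mul_star_self, ← QuaternionAlgebra.coe_smul, smul_eq_mul,
    inv_mul_cancel₀ h, QuaternionAlgebra.coe_one]

lemma dinv_mul {x : ℍ[ℚ,d.a,d.b]} (hx : x ≠ 0) : dinv x * x = 1 := by
  have h : nrd x ≠ 0 := fun h => hx (eq_zero_of_nrd d.ha d.hb h)
  rw [dinv, smul_mul_assoc, star_mul_self, ← QuaternionAlgebra.coe_smul, smul_eq_mul,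
    inv_mul_cancel₀ h, QuaternionAlgebra.coe_one]

lemma natSmul_mem_O {x : ℍ[ℚ,d.a,d.b]} (hx : x ∈ d.O) (n : ℕ) : (n : ℚ) • x ∈ d.O := by
  rw [Nat.cast_smul_eq_nsmul]
  exact d.O.nsmul_mem hx n

lemma natSmul_mem_LL {g : Matrix (Fin 2) (Fin 2) ℚ_[p]} {x : ℍ[ℚ,d.a,d.b]}
    (hx : x ∈ LL d g) (n : ℕ) : (n : ℚ) • x ∈ LL d g := by
  rw [Nat.cast_smul_eq_nsmul]
  exact (LL d g).nsmul_mem hx n

variable (d) in
/-- an element of minimal norm -/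
lemma exists_min {g : Matrix (Fin 2) (Fin 2) ℚ_[p]} (h : ∃ x ∈ LL d g, x ≠ 0) :
    ∃ x0 ∈ LL d g, x0 ≠ 0 ∧ ∀ x ∈ LL d g, nrd x < nrd x0 → x = 0 := by
  classical
  have h1 : ∃ n : ℕ, ∃ x ∈ LL d g, x ≠ 0 ∧ nrd x = n := by
    obtain ⟨x, hx, hx0⟩ := h
    obtain ⟨n, hn⟩ := Datum.exists_norm hx.1
    exact ⟨n, x, hx, hx0, hn⟩
  obtain ⟨x0, hx0, hx00, hn0⟩ := Nat.find_spec h1
  refine ⟨x0, hx0, hx00, fun x hx hlt => ?_⟩
  by_contra hne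
  obtain ⟨n, hn⟩ := Datum.exists_norm hx.1
  have h2 := Nat.find_min' h1 ⟨x, hx, hne, hn⟩
  rw [hn, hn0] at hlt
  have h3 : n < Nat.find h1 := by exact_mod_cast hlt
  omega

/-- the property of the constant of `cl_approx` -/
def IsC (d : Datum p) (C : ℕ) : Prop := ∀ z : ℍ[ℚ,d.a,d.b], ∃ m : ℕ, 1 ≤ m ∧ m ≤ C ∧
  ∃ q ∈ d.O, nrd ((m : ℚ) • z - q) < 1

lemma min_dvd {C : ℕ} (hC : IsC d C) {g : Matrix (Fin 2) (Fin 2) ℚ_[p]} {x0 : ℍ[ℚ,d.a,d.b]}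
    (hx0 : x0 ∈ LL d g) (h0 : x0 ≠ 0) (hmin : ∀ x ∈ LL d g, nrd x < nrd x0 → x = 0)
    {x : ℍ[ℚ,d.a,d.b]} (hx : x ∈ LL d g) :
    ∃ q ∈ d.O, ((C.factorial : ℕ) : ℚ) • x = q * x0 := by
  obtain ⟨m, hm1, hmC, q, hq, hlt⟩ := hC (x * dinv x0)
  have h1 : (m : ℚ) • x - q * x0 = ((m : ℚ) • (x * dinv x0) - q) * x0 := by
    rw [sub_mul, smul_mul_assoc, mul_assoc, dinv_mul h0, mul_one]
  have hpos : 0 < nrd x0 := by
    refine lt_of_le_of_ne (nrd_nonneg d.ha d.hb x0) ?_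
    intro h
    exact h0 (eq_zero_of_nrd d.ha d.hb h.symm)
  have h2 : nrd ((m : ℚ) • x - q * x0) < nrd x0 := by
    rw [h1, nrd_mul]
    nlinarith
  have h3 : (m : ℚ) • x - q * x0 = 0 :=
    hmin _ ((LL d g).sub_mem (natSmul_mem_LL hx m) (LL_mul hq hx0)) h2
  obtain ⟨t, ht⟩ := Nat.dvd_factorial hm1 hmC
  refine ⟨(t : ℚ) • q, natSmul_mem_O hq t, ?_⟩
  rw [ht, smul_mul_assoc, ← sub_eq_zero.1 h3, smul_smul, mul_comm m t, Nat.cast_mul]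

/-- the code of an ideal -/
def InJ (n : ℕ) (g : Matrix (Fin 2) (Fin 2) ℚ_[p]) (x0 u : ℍ[ℚ,d.a,d.b]) : Prop :=
  ∃ x ∈ LL d g, u * x0 = (n : ℚ) • x

lemma InJ_add {n : ℕ} {g : Matrix (Fin 2) (Fin 2) ℚ_[p]} {x0 u v : ℍ[ℚ,d.a,d.b]}
    (hu : InJ n g x0 u) (hv : InJ n g x0 v) : InJ n g x0 (u + v) := by
  obtain ⟨x, hx, h⟩ := hu
  obtain ⟨y, hy, h'⟩ := hv
  exact ⟨x + y, (LL d g).add_mem hx hy, by rw [add_mul, h, h', smul_add]⟩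

lemma InJ_sub {n : ℕ} {g : Matrix (Fin 2) (Fin 2) ℚ_[p]} {x0 u v : ℍ[ℚ,d.a,d.b]}
    (hu : InJ n g x0 u) (hv : InJ n g x0 v) : InJ n g x0 (u - v) := by
  obtain ⟨x, hx, h⟩ := hu
  obtain ⟨y, hy, h'⟩ := hv
  exact ⟨x - y, (LL d g).sub_mem hx hy, by rw [sub_mul, h, h', smul_sub]⟩

lemma InJ_smul {n : ℕ} {g : Matrix (Fin 2) (Fin 2) ℚ_[p]} {x0 v : ℍ[ℚ,d.a,d.b]}
    (hx0 : x0 ∈ LL d g) (hv : v ∈ d.O) : InJ n g x0 ((n : ℚ) • v) :=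
  ⟨v * x0, LL_mul hv hx0, by rw [smul_mul_assoc]⟩

variable (d) in
/-- representatives of the order modulo `n` -/
lemma exists_rep (n : ℕ) (hn : 0 < n) : ∃ S : Finset ℍ[ℚ,d.a,d.b],
    ∀ u ∈ d.O, ∃ r ∈ S, ∃ v ∈ d.O, u = r + (n : ℚ) • v := by
  classical
  have := d.moduleFinite
  obtain ⟨N, s, hs⟩ := Module.Finite.exists_fin (R := ℤ) (M := d.O)
  refine ⟨univ.image (fun c : Fin N → Fin n => ∑ i, ((c i : ℕ) : ℤ) • ((s i : d.O) : ℍ[ℚ,d.a,d.b])),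
    fun u hu => ?_⟩
  have h1 : (⟨u, hu⟩ : d.O) ∈ Submodule.span ℤ (Set.range s) := by
    rw [hs]; exact Submodule.mem_top
  rw [Submodule.mem_span_range_iff_exists_fun] at h1
  obtain ⟨c, hc⟩ := h1
  have hc' : u = ∑ i, c i • ((s i : d.O) : ℍ[ℚ,d.a,d.b]) := by
    have := congrArg (fun z : d.O => (z : ℍ[ℚ,d.a,d.b])) hc
    simp only at this
    rw [← this]
    have h2 := map_sum d.O.subtype (fun i => c i • s i) univ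
    refine h2.trans (sum_congr rfl fun i _ => ?_)
    exact map_zsmul d.O.subtype (c i) (s i)
  have hnZ : (0 : ℤ) < n := by exact_mod_cast hn
  have hcell : ∀ i, (c i % (n : ℤ)).toNat < n := by
    intro i
    have h1 := Int.emod_lt_of_pos (c i) hnZ
    have h2 := Int.emod_nonneg (c i) hnZ.ne'
    omega
  refine ⟨∑ i, (((⟨(c i % (n : ℤ)).toNat, hcell i⟩ : Fin n) : ℕ) : ℤ) •
    ((s i : d.O) : ℍ[ℚ,d.a,d.b]), mem_image.2 ⟨fun i => ⟨(c i % (n : ℤ)).toNat, hcell i⟩,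
      mem_univ _, rfl⟩, ∑ i, (c i / (n : ℤ)) • ((s i : d.O) : ℍ[ℚ,d.a,d.b]),
    sum_mem fun i _ => d.O.zsmul_mem (s i).2 _, ?_⟩
  rw [Nat.cast_smul_eq_nsmul, smul_sum, ← sum_add_distrib, hc']
  refine sum_congr rfl fun i _ => ?_
  rw [← natCast_zsmul, smul_smul, ← add_smul]
  congr 1
  have h1 : (((c i % (n : ℤ)).toNat : ℕ) : ℤ) = c i % (n : ℤ) :=
    Int.toNat_of_nonneg (Int.emod_nonneg (c i) hnZ.ne')
  show c i = (((c i % (n : ℤ)).toNat : ℕ) : ℤ) + (n : ℤ) * (c i / (n : ℤ))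
  rw [h1, Int.emod_add_mul_ediv]

/-- two ideals with the same code differ by a right factor -/
lemma code_transfer {C : ℕ} (hC : IsC d C) {S : Finset ℍ[ℚ,d.a,d.b]}
    (hS : ∀ u ∈ d.O, ∃ r ∈ S, ∃ v ∈ d.O, u = r + ((C.factorial : ℕ) : ℚ) • v)
    {g g' : Matrix (Fin 2) (Fin 2) ℚ_[p]} {x0 x0' : ℍ[ℚ,d.a,d.b]}
    (hx0 : x0 ∈ LL d g) (h0 : x0 ≠ 0) (hmin : ∀ x ∈ LL d g, nrd x < nrd x0 → x = 0)
    (hx0' : x0' ∈ LL d g') (h0' : x0' ≠ 0)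
    (hcode : ∀ r ∈ S, InJ C.factorial g x0 r → InJ C.factorial g' x0' r)
    {x : ℍ[ℚ,d.a,d.b]} (hx : x ∈ LL d g) :
    ∃ x' ∈ LL d g', x = x' * (dinv x0' * x0) := by
  obtain ⟨q, hq, hqx⟩ := min_dvd hC hx0 h0 hmin hx
  obtain ⟨r, hr, v, hv, hqr⟩ := hS q hq
  have h1 : InJ C.factorial g x0 q := ⟨x, hx, hqx.symm⟩
  have h2 : InJ C.factorial g x0 r := by
    have := InJ_sub h1 (InJ_smul (n := C.factorial) hx0 hv)
    rwa [hqr, add_sub_cancel_right] at this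
  have h3 := hcode r hr h2
  have h4 : InJ C.factorial g' x0' q := by
    rw [hqr]
    exact InJ_add h3 (InJ_smul hx0' hv)
  obtain ⟨x', hx', h5⟩ := h4
  refine ⟨x', hx', ?_⟩
  have hC0 : ((C.factorial : ℕ) : ℚ) ≠ 0 := by exact_mod_cast Nat.factorial_ne_zero C
  have h6 : ((C.factorial : ℕ) : ℚ) • x = ((C.factorial : ℕ) : ℚ) • (x' * (dinv x0' * x0)) := by
    rw [← smul_mul_assoc, ← h5, mul_assoc, ← mul_assoc x0', mul_dinv h0', one_mul, hqx]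
  have h7 := congrArg (fun z => (((C.factorial : ℕ) : ℚ)⁻¹) • z) h6
  simp only [smul_smul] at h7
  rwa [inv_mul_cancel₀ hC0, one_smul, one_smul] at h7

end Gouvea.Quat
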