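import Pool.Agent.Work.MP_d3517d_nt.Quat.Basic

/-! The elements of given reduced norm of an order in a definite quaternion algebra are finite in
number. -/

set_option autoImplicit false

open Quaternion Finset

noncomputable section

namespace Gouvea.Quat

variable {p : ℕ} [Fact p.Prime] (d : Datum p)

/-- an integral multiple -/
def IsI (D : ℕ) (q : ℚ) : Prop := ∃ z : ℤ, (D : ℚ) * q = z

lemma isI_zero (D : ℕ) : IsI D 0 := ⟨0, by simp⟩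

lemma isI_add {D : ℕ} {q r : ℚ} (hq : IsI D q) (hr : IsI D r) : IsI D (q + r) := by
  obtain ⟨a, ha⟩ := hq
  obtain ⟨b, hb⟩ := hr
  exact ⟨a + b, by push_cast; rw [mul_add, ha, hb]⟩

lemma isI_neg {D : ℕ} {q : ℚ} (hq : IsI D q) : IsI D (-q) := by
  obtain ⟨a, ha⟩ := hq
  exact ⟨-a, by push_cast; rw [mul_neg, ha]⟩

lemma isI_of_dvd {D : ℕ} {q : ℚ} (h : q.den ∣ D) : IsI D q := by
  obtain ⟨e, he⟩ := h
  refine ⟨e * q.num, ?_⟩
  rw [he]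
  push_cast
  have h1 : (q.den : ℚ) * q = q.num := Rat.den_mul_eq_num q
  linear_combination (e : ℚ) * h1

/-- a common denominator of the coordinates of the elements of the order -/
theorem exists_denom : ∃ D : ℕ, 0 < D ∧ ∀ x ∈ d.O, IsI D x.re ∧ IsI D x.imI ∧ IsI D x.imJ ∧
    IsI D x.imK := by
  classical
  obtain ⟨S, hS⟩ := d.fg
  obtain ⟨f, hf⟩ : ∃ f : ℍ[ℚ,d.a,d.b] → ℕ, f = fun x =>
    x.re.den * x.imI.den * x.imJ.den * x.imK.den := ⟨_, rfl⟩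
  have hpos : ∀ x, 0 < f x := by
    intro x
    rw [hf]
    have h1 := x.re.den_pos
    have h2 := x.imI.den_pos
    have h3 := x.imJ.den_pos
    have h4 := x.imK.den_pos
    positivity
  refine ⟨∏ x ∈ S, f x, Finset.prod_pos fun x _ => hpos x, ?_⟩
  intro x hx
  have hx' : x ∈ AddSubgroup.closure (S : Set ℍ[ℚ,d.a,d.b]) := by
    rw [hS]; exact hx
  clear hx
  induction hx' using AddSubgroup.closure_induction with
  | mem x hx =>
    have h0 : f x ∣ ∏ x ∈ S, f x := Finset.dvd_prod_of_mem f hx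
    have h1 : x.re.den ∣ f x := by
      rw [hf]; exact ⟨x.imI.den * x.imJ.den * x.imK.den, by ring⟩
    have h2 : x.imI.den ∣ f x := by
      rw [hf]; exact ⟨x.re.den * x.imJ.den * x.imK.den, by ring⟩
    have h3 : x.imJ.den ∣ f x := by
      rw [hf]; exact ⟨x.re.den * x.imI.den * x.imK.den, by ring⟩
    have h4 : x.imK.den ∣ f x := by
      rw [hf]; exact ⟨x.re.den * x.imI.den * x.imJ.den, by ring⟩
    exact ⟨isI_of_dvd (h1.trans h0), isI_of_dvd (h2.trans h0), isI_of_dvd (h3.trans h0),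
      isI_of_dvd (h4.trans h0)⟩
  | zero => exact ⟨isI_zero _, isI_zero _, isI_zero _, isI_zero _⟩
  | add x y _ _ hx hy =>
    exact ⟨isI_add hx.1 hy.1, isI_add hx.2.1 hy.2.1, isI_add hx.2.2.1 hy.2.2.1,
      isI_add hx.2.2.2 hy.2.2.2⟩
  | neg x _ hx =>
    exact ⟨isI_neg hx.1, isI_neg hx.2.1, isI_neg hx.2.2.1, isI_neg hx.2.2.2⟩

/-- a bounded rational number with bounded denominator -/
lemma mem_range_of_isI {D : ℕ} (hD : 0 < D) {B : ℕ} {q : ℚ} (hq : IsI D q)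
    (hB : ((D : ℚ) * q) ^ 2 ≤ B) :
    q ∈ (Finset.Icc (-(B : ℤ)) B).image fun z : ℤ => (z : ℚ) / D := by
  obtain ⟨z, hz⟩ := hq
  have hD0 : (D : ℚ) ≠ 0 := by exact_mod_cast hD.ne'
  rw [Finset.mem_image]
  refine ⟨z, ?_, by rw [← hz]; field_simp⟩
  rw [hz] at hB
  have h1 : z ^ 2 ≤ (B : ℤ) := by exact_mod_cast hB
  have h2 : z ≤ z ^ 2 := by nlinarith [sq_nonneg (z - 1), sq_nonneg z, Int.le_self_sq z]
  have h3 : -z ≤ z ^ 2 := by
    have := Int.le_self_sq (-z)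
    rwa [neg_sq] at this
  rw [Finset.mem_Icc]
  constructor <;> linarith

/-- The elements of the order of reduced norm `m` are finite in number. -/
theorem finite_nrd (m : ℕ) : {x : ℍ[ℚ,d.a,d.b] | x ∈ d.O ∧ nrd x = m}.Finite := by
  classical
  obtain ⟨D, hD, hI⟩ := exists_denom d
  have ha := d.ha
  have hb := d.hb
  have hab : 0 < d.a * d.b := mul_pos_of_neg_of_neg ha hb
  obtain ⟨B, hB⟩ := exists_nat_gt ((D : ℚ) ^ 2 * (m * (1 + (-d.a)⁻¹ + (-d.b)⁻¹ + (d.a * d.b)⁻¹)))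
  let R : Finset ℚ := (Finset.Icc (-(B : ℤ)) B).image fun z : ℤ => (z : ℚ) / D
  have hfin : ((R ×ˢ R ×ˢ R ×ˢ R).image
    fun t : ℚ × ℚ × ℚ × ℚ => (⟨t.1, t.2.1, t.2.2.1, t.2.2.2⟩ : ℍ[ℚ,d.a,d.b]) :
      Set ℍ[ℚ,d.a,d.b]).Finite := Finset.finite_toSet _
  refine hfin.subset ?_
  rintro x ⟨hx, hn⟩
  obtain ⟨h1, h2, h3, h4⟩ := hI x hx
  have hna : 0 < -d.a := by linarith
  have hnb : 0 < -d.b := by linarith
  have e1 : 0 ≤ -d.a * x.imI ^ 2 := mul_nonneg hna.le (sq_nonneg _)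
  have e2 : 0 ≤ -d.b * x.imJ ^ 2 := mul_nonneg hnb.le (sq_nonneg _)
  have e3 : 0 ≤ d.a * d.b * x.imK ^ 2 := mul_nonneg hab.le (sq_nonneg _)
  have e0 : 0 ≤ x.re ^ 2 := sq_nonneg _
  rw [nrd] at hn
  have hm : (0 : ℚ) ≤ m := Nat.cast_nonneg m
  have ia : 0 < (-d.a)⁻¹ := inv_pos.2 hna
  have ib : 0 < (-d.b)⁻¹ := inv_pos.2 hnb
  have iab : 0 < (d.a * d.b)⁻¹ := inv_pos.2 hab
  have b0 : x.re ^ 2 ≤ m := by linarith
  have b1 : x.imI ^ 2 ≤ m * (-d.a)⁻¹ := by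
    rw [← div_eq_mul_inv, le_div_iff₀ hna]
    linarith
  have b2 : x.imJ ^ 2 ≤ m * (-d.b)⁻¹ := by
    rw [← div_eq_mul_inv, le_div_iff₀ hnb]
    linarith
  have b3 : x.imK ^ 2 ≤ m * (d.a * d.b)⁻¹ := by
    rw [← div_eq_mul_inv, le_div_iff₀ hab]
    linarith
  have m1 : 0 ≤ (m : ℚ) * (-d.a)⁻¹ := mul_nonneg hm ia.le
  have m2 : 0 ≤ (m : ℚ) * (-d.b)⁻¹ := mul_nonneg hm ib.le
  have m3 : 0 ≤ (m : ℚ) * (d.a * d.b)⁻¹ := mul_nonneg hm iab.le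
  have key : ∀ q : ℚ, q ^ 2 ≤ m * (1 + (-d.a)⁻¹ + (-d.b)⁻¹ + (d.a * d.b)⁻¹) →
      ((D : ℚ) * q) ^ 2 ≤ B := by
    intro q hq
    rw [mul_pow]
    refine le_trans ?_ hB.le
    exact mul_le_mul_of_nonneg_left hq (sq_nonneg _)
  have hexp : (m : ℚ) * (1 + (-d.a)⁻¹ + (-d.b)⁻¹ + (d.a * d.b)⁻¹) =
      m + m * (-d.a)⁻¹ + m * (-d.b)⁻¹ + m * (d.a * d.b)⁻¹ := by ring
  rw [Finset.coe_image, Set.mem_image]
  refine ⟨(x.re, x.imI, x.imJ, x.imK), ?_, ?_⟩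
  · rw [Finset.mem_coe]
    simp only [Finset.mem_product]
    refine ⟨mem_range_of_isI hD h1 (key _ ?_), mem_range_of_isI hD h2 (key _ ?_),
      mem_range_of_isI hD h3 (key _ ?_), mem_range_of_isI hD h4 (key _ ?_)⟩ <;>
    · rw [hexp]; linarith
  · rfl

/-- the finite set of elements of reduced norm `m` -/
def NS (m : ℕ) : Finset ℍ[ℚ,d.a,d.b] := (finite_nrd d m).toFinset

variable {d}

lemma mem_NS {m : ℕ} {x : ℍ[ℚ,d.a,d.b]} : x ∈ NS d m ↔ x ∈ d.O ∧ nrd x = m := by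
  simp [NS]

lemma one_mem_NS : (1 : ℍ[ℚ,d.a,d.b]) ∈ NS d 1 := by
  rw [mem_NS, nrd_one]
  exact ⟨d.O.one_mem, by simp⟩

lemma card_NS_one_ne : (NS d 1).card ≠ 0 := Finset.card_ne_zero_of_mem one_mem_NS

end Gouvea.Quat
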