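import Pool.Agent.Work.MP_d3517d_nt.Defs

/-!
# Transfer along a finite cover of `G`-sets of degree prime to `p` (MP_d3517d_nt)

`π : Ω' → Ω` is a surjective map of `G`-sets all of whose fibres have `c` elements, `p ∤ c`.
Forms on `Ω` are the forms on `Ω'` on which an idempotent equivariant endomorphism of `ℤ_p[Ω']`
acts as the identity.
-/

open Polynomial Finset Filter Topology

noncomputable section

namespace Gouvea

variable {p : ℕ} [Fact p.Prime]

section Ext

variable {Ω : Type}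

/-- The linear extension of a function on `Ω` to `ℤ_p[Ω]`. -/
def extF (f : Ω → ℚ_[p][X]) : (Ω →₀ ℤ_[p]) →+ ℚ_[p][X] where
  toFun v := v.sum fun y a => (a : ℚ_[p]) • f y
  map_zero' := by simp
  map_add' v w := by
    rw [Finsupp.sum_add_index'] <;> simp [add_smul]

lemma extF_apply (f : Ω → ℚ_[p][X]) (v : Ω →₀ ℤ_[p]) :
    extF f v = v.sum fun y a => (a : ℚ_[p]) • f y := rfl

lemma extF_single (f : Ω → ℚ_[p][X]) (y : Ω) (a : ℤ_[p]) :
    extF f (Finsupp.single y a) = (a : ℚ_[p]) • f y := by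
  rw [extF_apply, Finsupp.sum_single_index (by simp)]

lemma extF_smul (f : Ω → ℚ_[p][X]) (a : ℤ_[p]) (v : Ω →₀ ℤ_[p]) :
    extF f (a • v) = (a : ℚ_[p]) • extF f v := by
  rw [extF_apply, extF_apply, Finsupp.sum_smul_index' (by simp), Finsupp.smul_sum]
  simp [mul_smul]

lemma corr_apply (t : (Ω →₀ ℤ_[p]) →ₗ[ℤ_[p]] (Ω →₀ ℤ_[p])) (f : Ω → ℚ_[p][X]) (x : Ω) :
    corr t f x = extF f (t (Finsupp.single x 1)) := rfl

/-- two additive maps which are homogeneous and agree on the basis agree. -/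
lemma extF_ext (f : Ω → ℚ_[p][X]) (F : (Ω →₀ ℤ_[p]) → ℚ_[p][X]) (hF : ∀ v w, F (v + w) = F v + F w)
    (hF' : ∀ (a : ℤ_[p]) v, F (a • v) = (a : ℚ_[p]) • F v)
    (h : ∀ x, F (Finsupp.single x 1) = f x) (v : Ω →₀ ℤ_[p]) : extF f v = F v := by
  induction v using Finsupp.induction_linear with
  | zero =>
    have := hF' 0 0
    simp only [smul_zero, PadicInt.coe_zero, zero_smul] at this
    rw [this, map_zero]
  | add v w hv hw => rw [map_add, hv, hw, hF]
  | single x a =>
    rw [extF_single, ← h x, ← hF' a, Finsupp.smul_single, smul_eq_mul, mul_one]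

lemma extF_corr (t : (Ω →₀ ℤ_[p]) →ₗ[ℤ_[p]] (Ω →₀ ℤ_[p])) (f : Ω → ℚ_[p][X])
    (v : Ω →₀ ℤ_[p]) : extF (corr t f) v = extF f (t v) := by
  apply extF_ext (corr t f) (fun v => extF f (t v))
  · intro v w
    simp
  · intro a v
    rw [map_smul, extF_smul]
  · intro x
    rw [corr_apply]

end Ext

section Cover

variable {Ω Ω' : Type}

/-- `f ↦ f ∘ π`. -/
def pull (π : Ω' → Ω) : (Ω → ℚ_[p][X]) →ₗ[ℚ_[p]] (Ω' → ℚ_[p][X]) where
  toFun f := fun x => f (π x)
  map_add' _ _ := rfl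
  map_smul' _ _ := rfl

lemma pull_apply (π : Ω' → Ω) (f : Ω → ℚ_[p][X]) (x : Ω') : pull π f x = f (π x) := rfl

lemma pull_injective {π : Ω' → Ω} (hs : Function.Surjective π) :
    Function.Injective (pull (p := p) π) := by
  intro f g h
  funext w
  obtain ⟨x, rfl⟩ := hs w
  exact congrFun h x

/-- `ℤ_p[Ω'] → ℤ_p[Ω]`. -/
def pushL (p : ℕ) [Fact p.Prime] (π : Ω' → Ω) : (Ω' →₀ ℤ_[p]) →ₗ[ℤ_[p]] (Ω →₀ ℤ_[p]) :=
  Finsupp.lmapDomain ℤ_[p] ℤ_[p] π

lemma pushL_apply (π : Ω' → Ω) (v : Ω' →₀ ℤ_[p]) : pushL p π v = Finsupp.mapDomain π v := rfl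

lemma pushL_single (π : Ω' → Ω) (x : Ω') (a : ℤ_[p]) :
    pushL p π (Finsupp.single x a) = Finsupp.single (π x) a := by
  rw [pushL_apply, Finsupp.mapDomain_single]

lemma extF_pull (π : Ω' → Ω) (f : Ω → ℚ_[p][X]) (v : Ω' →₀ ℤ_[p]) :
    extF (pull π f) v = extF f (pushL p π v) := by
  apply extF_ext (pull π f) (fun v => extF f (pushL p π v))
  · intro v w
    simp
  · intro a v
    rw [map_smul, extF_smul]
  · intro x
    rw [pushL_single, extF_single]
    simp [pull_apply]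

/-- A finite cover of degree `c` prime to `p`. -/
structure Cover (p : ℕ) [Fact p.Prime] (Ω' Ω : Type) [MulAction (G p) Ω'] [MulAction (G p) Ω]
    where
  /-- the covering map -/
  π : Ω' → Ω
  /-- the degree -/
  c : ℕ
  equiv : ∀ (g : G p) (x : Ω'), π (g • x) = g • π x
  fib : ∀ w : Ω, (π ⁻¹' {w}).ncard = c
  hc : ¬ p ∣ c

variable [MulAction (G p) Ω'] [MulAction (G p) Ω] (C : Cover p Ω' Ω)

namespace Cover

lemma c_ne_zero : C.c ≠ 0 := fun h => C.hc (h ▸ dvd_zero p)

lemma fib_finite (w : Ω) : (C.π ⁻¹' {w}).Finite :=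
  Set.finite_of_ncard_ne_zero (by rw [C.fib]; exact C.c_ne_zero)

lemma surj : Function.Surjective C.π := by
  intro w
  have : (C.π ⁻¹' {w}).Nonempty := by
    rw [Set.nonempty_iff_ne_empty]
    intro h
    apply C.c_ne_zero
    rw [← C.fib w, h, Set.ncard_empty]
  exact this

/-- the fibre as a finset -/
def fibre (w : Ω) : Finset Ω' := (C.fib_finite w).toFinset

lemma mem_fibre {w : Ω} {x : Ω'} : x ∈ C.fibre w ↔ C.π x = w := by
  simp [fibre]

lemma card_fibre (w : Ω) : (C.fibre w).card = C.c := by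
  rw [← C.fib w, Set.ncard_eq_toFinset_card _ (C.fib_finite w)]
  rfl

lemma isUnit_c : IsUnit (C.c : ℤ_[p]) := by
  rw [PadicInt.isUnit_iff]
  by_contra h
  have h1 : ‖(C.c : ℤ_[p])‖ < 1 := lt_of_le_of_ne (PadicInt.norm_le_one _) h
  have h2 := PadicInt.norm_intCast_lt_one_iff (p := p) (z := (C.c : ℤ))
  rw [Int.cast_natCast] at h2
  exact C.hc (by exact_mod_cast h2.1 h1)

/-- the inverse of the degree -/
def u : ℤ_[p] := ((C.isUnit_c).unit⁻¹ : ℤ_[p]ˣ)

lemma u_mul : C.u * (C.c : ℤ_[p]) = 1 := (C.isUnit_c).val_inv_mul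

/-- the section `[w] ↦ (1/c) Σ_{π x = w} [x]`. -/
def sec : (Ω →₀ ℤ_[p]) →ₗ[ℤ_[p]] (Ω' →₀ ℤ_[p]) :=
  Finsupp.linearCombination ℤ_[p] fun w => C.u • ∑ x ∈ C.fibre w, Finsupp.single x 1

lemma sec_single (w : Ω) :
    C.sec (Finsupp.single w 1) = C.u • ∑ x ∈ C.fibre w, Finsupp.single x 1 := by
  rw [sec, Finsupp.linearCombination_single, one_smul]

lemma push_sec_single (w : Ω) : pushL p C.π (C.sec (Finsupp.single w 1)) =
    Finsupp.single w 1 := by
  rw [sec_single, map_smul, map_sum]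
  have : ∀ x ∈ C.fibre w, pushL p C.π (Finsupp.single x 1) = Finsupp.single w (1 : ℤ_[p]) := by
    intro x hx
    rw [pushL_single, C.mem_fibre.1 hx]
  rw [Finset.sum_congr rfl this, Finset.sum_const, C.card_fibre, ← Nat.cast_smul_eq_nsmul ℤ_[p],
    smul_smul, C.u_mul, one_smul]

/-- (T1) -/
lemma push_sec : pushL p C.π ∘ₗ C.sec = LinearMap.id := by
  apply Finsupp.lhom_ext'
  intro w
  apply LinearMap.ext_ring
  simpa using C.push_sec_single w

lemma push_sec_apply (v : Ω →₀ ℤ_[p]) : pushL p C.π (C.sec v) = v := by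
  have := LinearMap.congr_fun C.push_sec v
  simpa using this

lemma push_equiv (g : G p) (v : Ω' →₀ ℤ_[p]) :
    pushL p C.π (Finsupp.mapDomain (g • ·) v) = Finsupp.mapDomain (g • ·) (pushL p C.π v) := by
  rw [pushL_apply, pushL_apply, ← Finsupp.mapDomain_comp, ← Finsupp.mapDomain_comp]
  congr 1
  funext x
  exact C.equiv g x

lemma sec_equiv (g : G p) (v : Ω →₀ ℤ_[p]) :
    C.sec (Finsupp.mapDomain (g • ·) v) = Finsupp.mapDomain (g • ·) (C.sec v) := by
  have key : C.sec ∘ₗ Finsupp.lmapDomain ℤ_[p] ℤ_[p] (fun x : Ω => g • x) =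
      Finsupp.lmapDomain ℤ_[p] ℤ_[p] (fun x : Ω' => g • x) ∘ₗ C.sec := by
    apply Finsupp.lhom_ext'
    intro w
    apply LinearMap.ext_ring
    have h1 : C.sec (Finsupp.lmapDomain ℤ_[p] ℤ_[p] (fun x : Ω => g • x)
        (Finsupp.single w 1)) = C.sec (Finsupp.single (g • w) 1) := by
      rw [Finsupp.lmapDomain_apply, Finsupp.mapDomain_single]
    have h2 : Finsupp.lmapDomain ℤ_[p] ℤ_[p] (fun x : Ω' => g • x)
        (C.sec (Finsupp.single w 1)) = C.sec (Finsupp.single (g • w) 1) := by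
      rw [sec_single, sec_single, map_smul, map_sum]
      congr 1
      have : ∀ x ∈ C.fibre w, Finsupp.lmapDomain ℤ_[p] ℤ_[p] (fun x : Ω' => g • x)
          (Finsupp.single x 1) = Finsupp.single (g • x) (1 : ℤ_[p]) := by
        intro x _
        rw [Finsupp.lmapDomain_apply, Finsupp.mapDomain_single]
      rw [Finset.sum_congr rfl this]
      refine Finset.sum_bij (fun x _ => g • x) ?_ ?_ ?_ ?_
      · intro x hx
        rw [C.mem_fibre] at hx ⊢
        rw [C.equiv, hx]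
      · intro x _ y _ h
        exact smul_left_cancel g h
      · intro y hy
        refine ⟨g⁻¹ • y, ?_, by simp⟩
        rw [C.mem_fibre] at hy ⊢
        rw [C.equiv, hy, inv_smul_smul]
      · intro x _
        rfl
    simp only [LinearMap.comp_apply, Finsupp.lsingle_apply]
    rw [h1, h2]
  have := LinearMap.congr_fun key v
  simpa using this

/-- the idempotent of `ℤ_p[Ω']` -/
def idem : Module.End ℤ_[p] (Ω' →₀ ℤ_[p]) := C.sec ∘ₗ pushL p C.π

lemma idem_apply (v : Ω' →₀ ℤ_[p]) : C.idem v = C.sec (pushL p C.π v) := rfl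

variable {R : Type} [CommRing R] (act : R →+* Module.End ℤ_[p] (Ω →₀ ℤ_[p]))

/-- (T2) the action of `R × ℤ_p` on `ℤ_p[Ω']`. -/
def act' : R × ℤ_[p] →+* Module.End ℤ_[p] (Ω' →₀ ℤ_[p]) where
  toFun t := C.sec ∘ₗ (act t.1) ∘ₗ pushL p C.π + t.2 • (1 - C.idem)
  map_one' := by
    ext1 x
    ext1
    simp [idem]
  map_mul' s t := by
    apply LinearMap.ext
    intro v
    have hw : ∀ (r : R × ℤ_[p]) (w : Ω' →₀ ℤ_[p]),
        (C.sec ∘ₗ (act r.1) ∘ₗ pushL p C.π + r.2 • (1 - C.idem)) w =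
          C.sec (act r.1 (pushL p C.π w)) + r.2 • (w - C.sec (pushL p C.π w)) := fun _ _ => rfl
    rw [Module.End.mul_apply, hw, hw, hw]
    have h1 : pushL p C.π (C.sec (act t.1 (pushL p C.π v)) +
        t.2 • (v - C.sec (pushL p C.π v))) = act t.1 (pushL p C.π v) := by
      rw [map_add, map_smul, map_sub, push_sec_apply, push_sec_apply, sub_self, smul_zero,
        add_zero]
    rw [h1, add_sub_cancel_left, Prod.fst_mul, Prod.snd_mul, map_mul, Module.End.mul_apply,
      mul_smul]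
  map_zero' := by
    ext1 x
    ext1
    simp
  map_add' s t := by
    apply LinearMap.ext
    intro v
    simp only [Prod.fst_add, Prod.snd_add, map_add, LinearMap.add_apply, LinearMap.comp_apply,
      LinearMap.smul_apply, add_smul]
    abel

lemma act'_apply (t : R × ℤ_[p]) (v : Ω' →₀ ℤ_[p]) :
    C.act' act t v = C.sec (act t.1 (pushL p C.π v)) + t.2 • (v - C.sec (pushL p C.π v)) := rfl

lemma act'_equivariant (hact : ∀ t, Equivariant (act t)) (t : R × ℤ_[p]) :
    Equivariant (C.act' act t) := by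
  intro g v
  rw [act'_apply, act'_apply, C.push_equiv, hact t.1 g, C.sec_equiv, C.sec_equiv]
  have h1 : ∀ w₁ w₂ : Ω' →₀ ℤ_[p], Finsupp.mapDomain (g • ·) (w₁ + w₂) =
      Finsupp.mapDomain (g • ·) w₁ + Finsupp.mapDomain (g • ·) w₂ := fun _ _ =>
    Finsupp.mapDomain_add
  have h2 : ∀ w₁ w₂ : Ω' →₀ ℤ_[p], Finsupp.mapDomain (g • ·) (w₁ - w₂) =
      Finsupp.mapDomain (g • ·) w₁ - Finsupp.mapDomain (g • ·) w₂ := fun w₁ w₂ =>
    map_sub (Finsupp.lmapDomain ℤ_[p] ℤ_[p] (fun x : Ω' => g • x)) w₁ w₂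
  have h3 : ∀ (a : ℤ_[p]) (w : Ω' →₀ ℤ_[p]), Finsupp.mapDomain (g • ·) (a • w) =
      a • Finsupp.mapDomain (g • ·) w := fun a w => Finsupp.mapDomain_smul a w
  rw [h1, h3, h2]

/-- (T3) the ideal of `R × ℤ_p`. -/
def ideal' (m : Ideal R) : Ideal (R × ℤ_[p]) := m.prod ⊤

lemma mem_ideal' (m : Ideal R) (t : R × ℤ_[p]) : t ∈ ideal' (p := p) m ↔ t.1 ∈ m := by
  simp [ideal', Ideal.mem_prod]

lemma ideal'_isMaximal (m : Ideal R) (hm : m.IsMaximal) : (ideal' (p := p) m).IsMaximal := by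
  have : ideal' (p := p) m = m.comap (RingHom.fst R ℤ_[p]) := by
    ext t
    rw [mem_ideal', Ideal.mem_comap]
    rfl
  rw [this]
  have := hm
  exact Ideal.comap_isMaximal_of_surjective _ (fun r => ⟨(r, 0), rfl⟩)

lemma corr_pull (t : R × ℤ_[p]) (f : Ω → ℚ_[p][X]) :
    corr (C.act' act t) (pull C.π f) = pull C.π (corr (act t.1) f) := by
  funext x
  rw [corr_apply, extF_pull, act'_apply, pull_apply, corr_apply, map_add, map_smul, map_sub,
    push_sec_apply, push_sec_apply, sub_self, smul_zero, add_zero, pushL_single]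

lemma corr_pow_pull (t : R × ℤ_[p]) (f : Ω → ℚ_[p][X]) (N : ℕ) :
    (corr (C.act' act t) ^ N) (pull C.π f) = pull C.π ((corr (act t.1) ^ N) f) := by
  induction N with
  | zero => simp
  | succ N ih => rw [pow_succ', pow_succ', Module.End.mul_apply, Module.End.mul_apply, ih,
      corr_pull]

lemma pull_mem_Forms (n : ℕ) (f : Ω → ℚ_[p][X]) : pull C.π f ∈ Forms Ω' n ↔ f ∈ Forms Ω n := by
  constructor
  · rintro ⟨h1, h2⟩
    refine ⟨fun w => ?_, fun k hk w => ?_⟩
    · obtain ⟨x, rfl⟩ := C.surj w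
      exact h1 x
    · obtain ⟨x, rfl⟩ := C.surj w
      have := h2 k hk x
      rw [pull_apply, pull_apply, C.equiv] at this
      exact this
  · rintro ⟨h1, h2⟩
    refine ⟨fun x => h1 _, fun k hk x => ?_⟩
    rw [pull_apply, pull_apply, C.equiv]
    exact h2 k hk _

lemma pull_mem_FormsAt (m : Ideal R) (n : ℕ) (f : Ω → ℚ_[p][X]) :
    pull C.π f ∈ FormsAt (C.act' act) (ideal' m) n ↔ f ∈ FormsAt act m n := by
  constructor
  · rintro ⟨h1, h2⟩
    refine ⟨(C.pull_mem_Forms n f).1 h1, fun t ht w i => ?_⟩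
    obtain ⟨x, rfl⟩ := C.surj w
    have := h2 (t, 0) ((mem_ideal' m _).2 ht) x i
    simp only [corr_pow_pull] at this
    exact this
  · rintro ⟨h1, h2⟩
    refine ⟨(C.pull_mem_Forms n f).2 h1, fun t ht x i => ?_⟩
    have := h2 t.1 ((mem_ideal' m _).1 ht) (C.π x) i
    simp only [corr_pow_pull]
    exact this

lemma corr_idem (t : R × ℤ_[p]) (ht : t = (0, 1)) (g : Ω' → ℚ_[p][X]) (N : ℕ) :
    (corr (C.act' act t) ^ (N + 1)) g = corr (C.act' act t) g := by
  have hid : ∀ v, C.act' act t (C.act' act t v) = C.act' act t v := by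
    intro v
    have : t * t = t := by rw [ht]; ext <;> simp
    rw [← Module.End.mul_apply, ← map_mul, this]
  induction N with
  | zero => simp
  | succ N ih =>
    rw [pow_succ', Module.End.mul_apply, ih]
    funext x
    rw [corr_apply, extF_corr, hid, corr_apply]

/-- every form at `m'` comes from `Ω`. -/
lemma exists_pull (m : Ideal R) (n : ℕ) (g : Ω' → ℚ_[p][X])
    (hg : g ∈ FormsAt (C.act' act) (ideal' m) n) : ∃ f, pull C.π f = g := by
  have h0 : corr (C.act' act (0, 1)) g = 0 := by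
    funext x
    ext i
    have h1 := hg.2 (0, 1) ((mem_ideal' m _).2 m.zero_mem) x i
    have h2 := (tendsto_add_atTop_iff_nat 1).2 h1
    have h3 : (fun N : ℕ => ((corr (C.act' act (0, 1)) ^ (N + 1)) g x).coeff i) =
        fun _ => (corr (C.act' act (0, 1)) g x).coeff i := by
      funext N
      rw [C.corr_idem act (0, 1) rfl]
    rw [h3] at h2
    have := tendsto_nhds_unique tendsto_const_nhds h2
    simpa using this
  refine ⟨fun w => extF g (C.sec (Finsupp.single w 1)), ?_⟩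
  funext x
  have h1 := congrFun h0 x
  rw [corr_apply, act'_apply] at h1
  simp only [map_zero, LinearMap.zero_apply, zero_add, one_smul, map_sub, Pi.zero_apply,
    extF_single, PadicInt.coe_one, pushL_single] at h1
  rw [pull_apply]
  exact (sub_eq_zero.1 h1).symm

/-- (T4) -/
theorem map_FormsAt (m : Ideal R) (n : ℕ) :
    (FormsAt act m n).map (pull C.π) = FormsAt (C.act' act) (ideal' m) n := by
  ext g
  rw [Submodule.mem_map]
  constructor
  · rintro ⟨f, hf, rfl⟩
    exact (C.pull_mem_FormsAt act m n f).2 hf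
  · intro hg
    obtain ⟨f, rfl⟩ := C.exists_pull act m n g hg
    exact ⟨f, (C.pull_mem_FormsAt act m n f).1 hg, rfl⟩

/-- (T4) the Hecke operator commutes with the pull back. -/
theorem heckeT_pull (n : ℕ) (f : Ω → ℚ_[p][X]) :
    heckeT Ω' n (pull C.π f) = pull C.π (heckeT Ω n f) := by
  funext x
  change slash n (repInf p) (f (C.π (repInf p • x))) +
      ∑ b ∈ range p, slash n (rep p b) (f (C.π (rep p b • x))) =
    slash n (repInf p) (f (repInf p • C.π x)) +
      ∑ b ∈ range p, slash n (rep p b) (f (rep p b • C.π x))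
  simp only [C.equiv]

/-- (T4) -/
def formsEquiv (m : Ideal R) (n : ℕ) :
    FormsAt act m n ≃ₗ[ℚ_[p]] FormsAt (C.act' act) (ideal' m) n :=
  (Submodule.equivMapOfInjective (pull C.π) (pull_injective C.surj) (FormsAt act m n)).trans
    (LinearEquiv.ofEq _ _ (C.map_FormsAt act m n))

lemma formsEquiv_apply (m : Ideal R) (n : ℕ) (f : FormsAt act m n) :
    (C.formsEquiv act m n f : Ω' → ℚ_[p][X]) = pull C.π f := rfl

lemma formsAt_eq_bot_iff (m : Ideal R) (n : ℕ) :
    FormsAt (C.act' act) (ideal' m) n = ⊥ ↔ FormsAt act m n = ⊥ := by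
  rw [← C.map_FormsAt act m n]
  exact (Submodule.map_injective_of_injective (pull_injective C.surj)).eq_iff'
    (Submodule.map_bot _)

end Cover

end Cover

end Gouvea
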