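import Pool.Agent.Work.MP_d3517d_nt.Defs2
import Pool.Agent.Work.MP_d3517d_nt.Quat.Transfer

/-!
# Transfer of the eigenvalues and slopes along a cover of degree prime to `p` (MP_d3517d_nt)
-/

open Polynomial Finset Filter Topology MeasureTheory

noncomputable section

namespace Gouvea

variable {p : ℕ} [Fact p.Prime]

/-- conjugate operators on isomorphic submodules have the same eigenvalues -/
lemma eigs_map {M M' : Type} [AddCommGroup M] [Module ℚ_[p] M] [AddCommGroup M']
    [Module ℚ_[p] M'] (Φ : M →ₗ[ℚ_[p]] M') (hΦ : Function.Injective Φ)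
    (T : M →ₗ[ℚ_[p]] M) (T' : M' →ₗ[ℚ_[p]] M') (hT : ∀ f, T' (Φ f) = Φ (T f))
    (N : Submodule ℚ_[p] M) : eigs T' (N.map Φ) = eigs T N := by
  have hst : (∀ v ∈ N.map Φ, T' v ∈ N.map Φ) ↔ ∀ v ∈ N, T v ∈ N := by
    constructor
    · intro h v hv
      obtain ⟨w, hw, hw'⟩ := h (Φ v) (Submodule.mem_map_of_mem hv)
      rw [hT] at hw'
      rwa [← hΦ hw']
    · rintro h _ ⟨v, hv, rfl⟩
      rw [hT]
      exact Submodule.mem_map_of_mem (h v hv)
  have hfin : Module.Finite ℚ_[p] (N.map Φ) ↔ Module.Finite ℚ_[p] N :=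
    ⟨fun h => Module.Finite.equiv (Submodule.equivMapOfInjective Φ hΦ N).symm,
      fun h => Module.Finite.equiv (Submodule.equivMapOfInjective Φ hΦ N)⟩
  unfold eigs
  by_cases h : (∀ v ∈ N, T v ∈ N) ∧ Module.Finite ℚ_[p] N
  · have h' : (∀ v ∈ N.map Φ, T' v ∈ N.map Φ) ∧ Module.Finite ℚ_[p] (N.map Φ) :=
      ⟨hst.2 h.1, hfin.2 h.2⟩
    rw [dif_pos h, dif_pos h']
    have := h.2
    have := h'.2
    have key : (T'.restrict h'.1).charpoly = (T.restrict h.1).charpoly := by
      have hc : T'.restrict h'.1 = (Submodule.equivMapOfInjective Φ hΦ N).conj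
          (T.restrict h.1) := by
        apply LinearMap.ext
        rintro ⟨_, ⟨v, hv, rfl⟩⟩
        apply Subtype.ext
        have hv' : (⟨Φ v, ⟨v, hv, rfl⟩⟩ : N.map Φ) =
            Submodule.equivMapOfInjective Φ hΦ N ⟨v, hv⟩ := by
          apply Subtype.ext
          rfl
        rw [hv', LinearEquiv.conj_apply_apply, LinearEquiv.symm_apply_apply]
        rw [Submodule.coe_equivMapOfInjective_apply, LinearMap.coe_restrict_apply,
          LinearMap.coe_restrict_apply, Submodule.coe_equivMapOfInjective_apply, hT]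
      rw [hc, LinearEquiv.charpoly_conj]
    simp only [key]
  · have h' : ¬ ((∀ v ∈ N.map Φ, T' v ∈ N.map Φ) ∧ Module.Finite ℚ_[p] (N.map Φ)) := by
      rw [hst, hfin]
      exact h
    rw [dif_neg h, dif_neg h']

namespace Cover

variable {Ω Ω' : Type} [MulAction (G p) Ω'] [MulAction (G p) Ω] (C : Cover p Ω' Ω)
  {R : Type} [CommRing R] (act : R →+* Module.End ℤ_[p] (Ω →₀ ℤ_[p]))

theorem eigs_eq (m : Ideal R) (n : ℕ) :
    eigs (heckeT Ω' n) (FormsAt (C.act' act) (ideal' m) n) =
      eigs (heckeT Ω n) (FormsAt act m n) := by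
  rw [← C.map_FormsAt act m n]
  exact eigs_map (pull C.π) (pull_injective C.surj) _ _ (C.heckeT_pull n) _

theorem slopes_eq (m : Ideal R) (T : ℕ) :
    slopes (C.act' act) (ideal' m) T = slopes act m T := by
  unfold slopes
  simp only [C.eigs_eq act m]

theorem stable_iff (m : Ideal R) (n : ℕ) :
    (∀ f ∈ FormsAt (C.act' act) (ideal' m) n,
      heckeT Ω' n f ∈ FormsAt (C.act' act) (ideal' m) n) ↔
      ∀ f ∈ FormsAt act m n, heckeT Ω n f ∈ FormsAt act m n := by
  constructor
  · intro h f hf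
    have := h _ ((C.pull_mem_FormsAt act m n f).2 hf)
    rw [C.heckeT_pull] at this
    exact (C.pull_mem_FormsAt act m n _).1 this
  · intro h g hg
    obtain ⟨f, rfl⟩ := C.exists_pull act m n g hg
    rw [C.heckeT_pull]
    exact (C.pull_mem_FormsAt act m n _).2 (h f ((C.pull_mem_FormsAt act m n f).1 hg))

theorem finite_iff (m : Ideal R) (n : ℕ) :
    Module.Finite ℚ_[p] (FormsAt (C.act' act) (ideal' m) n) ↔
      Module.Finite ℚ_[p] (FormsAt act m n) :=
  ⟨fun _ => Module.Finite.equiv (C.formsEquiv act m n).symm,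
    fun _ => Module.Finite.equiv (C.formsEquiv act m n)⟩

end Cover

end Gouvea
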