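import Pool.Agent.Work.MP_d3517d_nt.Quat.Tors
import Pool.Agent.Work.MP_d3517d_nt.Quat.Transfer2

/-! From `G / Γ₁` to `G / Γ`: the quaternionic form of the theorem. -/

set_option autoImplicit false

open Quaternion Filter Topology MeasureTheory

noncomputable section

namespace Gouvea.Quat

variable {p : ℕ} [Fact p.Prime] {d : Datum p}

section cover

variable {Γ₁ Γ : Subgroup (G p)}

/-- The covering `G / Γ₁ → G / Γ` for a subgroup `Γ₁ ≤ Γ` of index prime to `p`. -/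
def coverOf (h : Γ₁ ≤ Γ) (h0 : ¬ p ∣ Nat.card (Γ ⧸ Γ₁.subgroupOf Γ)) :
    Cover p (G p ⧸ Γ₁) (G p ⧸ Γ) where
  π := Subgroup.quotientMapOfLE h
  c := Nat.card (Γ ⧸ Γ₁.subgroupOf Γ)
  equiv := by
    intro g x
    obtain ⟨x, rfl⟩ := QuotientGroup.mk_surjective x
    rfl
  fib := by
    intro w
    obtain ⟨g, rfl⟩ := QuotientGroup.mk_surjective w
    let f : Γ ⧸ Γ₁.subgroupOf Γ → G p ⧸ Γ₁ := Quotient.lift
      (fun γ : Γ => (QuotientGroup.mk (g * (γ : G p)) : G p ⧸ Γ₁)) (by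
        intro a b hab
        have h1 : a⁻¹ * b ∈ Γ₁.subgroupOf Γ := QuotientGroup.leftRel_apply.1 hab
        rw [Subgroup.mem_subgroupOf] at h1
        refine QuotientGroup.eq.2 ?_
        have h2 : (g * (a : G p))⁻¹ * (g * (b : G p)) = ((a⁻¹ * b : Γ) : G p) := by
          push_cast; group
        rw [h2]; exact h1)
    have hf : ∀ γ : Γ, f (QuotientGroup.mk γ) = QuotientGroup.mk (g * (γ : G p)) := fun _ => rfl
    have hinj : Function.Injective f := by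
      intro x y hxy
      obtain ⟨a, rfl⟩ := QuotientGroup.mk_surjective x
      obtain ⟨b, rfl⟩ := QuotientGroup.mk_surjective y
      rw [hf, hf, QuotientGroup.eq] at hxy
      rw [QuotientGroup.eq, Subgroup.mem_subgroupOf]
      have h2 : (g * (a : G p))⁻¹ * (g * (b : G p)) = ((a⁻¹ * b : Γ) : G p) := by
        push_cast; group
      rw [← h2]; exact hxy
    have hrange : Subgroup.quotientMapOfLE h ⁻¹' {(QuotientGroup.mk g : G p ⧸ Γ)} =
        Set.range f := by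
      ext x
      obtain ⟨u, rfl⟩ := QuotientGroup.mk_surjective x
      constructor
      · intro hx
        have hx' : (QuotientGroup.mk u : G p ⧸ Γ) = QuotientGroup.mk g := hx
        have h3 : g⁻¹ * u ∈ Γ := QuotientGroup.eq.1 hx'.symm
        refine ⟨QuotientGroup.mk ⟨g⁻¹ * u, h3⟩, ?_⟩
        rw [hf]
        congr 1
        simp
      · rintro ⟨y, hy⟩
        obtain ⟨γ, rfl⟩ := QuotientGroup.mk_surjective y
        rw [hf] at hy
        have h3 : (QuotientGroup.mk u : G p ⧸ Γ) = QuotientGroup.mk (g * (γ : G p)) := by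
          have := congrArg (Subgroup.quotientMapOfLE h) hy
          exact this.symm
        change (QuotientGroup.mk u : G p ⧸ Γ) = QuotientGroup.mk g
        rw [h3, QuotientGroup.eq]
        have : (g * (γ : G p))⁻¹ * g = (γ : G p)⁻¹ := by group
        rw [this]
        exact Γ.inv_mem γ.2
    rw [hrange]
    have := Nat.card_congr (Equiv.ofInjective f hinj)
    rw [this]
    rfl
  hc := h0

end cover

variable (d) in
/-- the covering `G / Γ₁ → G / Γ` -/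
def coverGam {M : ℕ} (hM : GoodMod M) (hp : IsCoprime (p : ℤ) (M : ℤ)) :
    Cover p (G p ⧸ Gam1 d hM hp) (G p ⧸ Gam d) :=
  coverOf (Gam1_le hM hp) (index_Gam1 hM hp).2

lemma hstab_Gam1 {M : ℕ} (hM : GoodMod M) (hp : IsCoprime (p : ℤ) (M : ℤ)) (hT : NoTors d) :
    ∀ k ∈ K p, ∀ x : G p ⧸ Gam1 d hM hp, k • x = x → k = 1 ∨ k = -1 := by
  intro k hk x hx
  obtain ⟨g, rfl⟩ := QuotientGroup.mk_surjective x
  have h1 : (QuotientGroup.mk (k * g) : G p ⧸ Gam1 d hM hp) = QuotientGroup.mk g := hx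
  have h2 : g⁻¹ * (k * g) ∈ Gam1 d hM hp := QuotientGroup.eq.1 h1.symm
  refine stab_Gam1 hM hp hT (g := g) hk ?_
  rw [mul_assoc]; exact h2

lemma scal_mem {M : ℕ} (hM : GoodMod M) (hp : IsCoprime (p : ℤ) (M : ℤ)) :
    scal p ∈ Gam1 d hM hp := by
  apply Gam'_le_Gam1
  refine ⟨0, 2, ((p : ℚ) ^ 1) • 1, (good_SM hM hp).pow_smul 1 (good_SM hM hp).one, ?_, ?_⟩
  · rw [nrd_smul, nrd_one]; ring
  · rw [iota_pow_smul, map_one, pow_zero, one_smul, pow_one]
    ext i j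
    fin_cases i <;> fin_cases j <;> simp [scal, upper]

lemma scal_comm (g : G p) : scal p * g = g * scal p := by
  apply Units.ext
  rw [Units.val_mul, Units.val_mul]
  have h : ((scal p : G p) : Matrix (Fin 2) (Fin 2) ℚ_[p]) = (p : ℚ_[p]) • 1 := by
    ext i j
    fin_cases i <;> fin_cases j <;> simp [scal, upper]
  rw [h, Matrix.smul_mul, Matrix.mul_smul, one_mul, mul_one]

lemma hscal_Gam1 {M : ℕ} (hM : GoodMod M) (hp : IsCoprime (p : ℤ) (M : ℤ)) :
    ∀ x : G p ⧸ Gam1 d hM hp, scal p • x = x := by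
  intro x
  obtain ⟨g, rfl⟩ := QuotientGroup.mk_surjective x
  change (QuotientGroup.mk (scal p * g) : G p ⧸ Gam1 d hM hp) = QuotientGroup.mk g
  rw [scal_comm, QuotientGroup.eq]
  have : (g * scal p)⁻¹ * g = (scal p)⁻¹ := by group
  rw [this]
  exact (Gam1 d hM hp).inv_mem (scal_mem hM hp)

lemma horb_Gam1 {M : ℕ} (hM : GoodMod M) (hp : IsCoprime (p : ℤ) (M : ℤ))
    (hF : ∃ F : Finset (G p), ∀ g : G p, ∃ k ∈ K p, ∃ f ∈ F, ∃ γ ∈ Gam d, g = k * f * γ) :
    Finite (MulAction.orbitRel.Quotient (K p) (G p ⧸ Gam1 d hM hp)) := by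
  obtain ⟨F, hF⟩ := hF
  have hfin : Finite (Gam d ⧸ (Gam1 d hM hp).subgroupOf (Gam d)) :=
    Nat.finite_of_card_ne_zero (index_Gam1 hM hp).1
  let f : F × (Gam d ⧸ (Gam1 d hM hp).subgroupOf (Gam d)) →
      MulAction.orbitRel.Quotient (K p) (G p ⧸ Gam1 d hM hp) :=
    fun x => Quotient.mk _ (QuotientGroup.mk ((x.1 : G p) * ((x.2.out : Gam d) : G p)))
  refine Finite.of_surjective f ?_
  intro w
  obtain ⟨x, rfl⟩ := Quotient.exists_rep w
  obtain ⟨g, rfl⟩ := QuotientGroup.mk_surjective x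
  obtain ⟨k, hk, u, hu, γ, hγ, hg⟩ := hF g
  refine ⟨(⟨u, hu⟩, QuotientGroup.mk ⟨γ, hγ⟩), ?_⟩
  apply Quotient.sound
  change (MulAction.orbitRel (K p) (G p ⧸ Gam1 d hM hp)).r _ _
  rw [MulAction.orbitRel_apply, MulAction.mem_orbit_iff]
  refine ⟨⟨k⁻¹, (K p).inv_mem hk⟩, ?_⟩
  change (QuotientGroup.mk (k⁻¹ * g) : G p ⧸ Gam1 d hM hp) = QuotientGroup.mk _
  rw [QuotientGroup.eq]
  set δ : Gam d := (QuotientGroup.mk ⟨γ, hγ⟩ :
    Gam d ⧸ (Gam1 d hM hp).subgroupOf (Gam d)).out with hδ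
  have h1 : (QuotientGroup.mk δ : Gam d ⧸ (Gam1 d hM hp).subgroupOf (Gam d)) =
      QuotientGroup.mk ⟨γ, hγ⟩ := Quotient.out_eq' _
  have h2 : (⟨γ, hγ⟩ : Gam d)⁻¹ * δ ∈ (Gam1 d hM hp).subgroupOf (Gam d) :=
    QuotientGroup.eq.1 h1.symm
  rw [Subgroup.mem_subgroupOf] at h2
  have h3 : (k⁻¹ * g)⁻¹ * (u * (δ : G p)) = (((⟨γ, hγ⟩ : Gam d)⁻¹ * δ : Gam d) : G p) := by
    rw [hg]; push_cast; group
  rw [h3]; exact h2

end Gouvea.Quat
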