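import Pool.Agent.Work.MP_d3517d_nt.Quat.Group

/-! Stabilisers of maximal compact subgroups on `G / Γ'` and on `G / Γ₁`. -/

set_option autoImplicit false

open Quaternion

noncomputable section

namespace Gouvea.Quat

variable {p : ℕ} [Fact p.Prime] {d : Datum p}

lemma K_entry {k : G p} (hk : k ∈ K p) (i j : Fin 2) :
    ‖(k : Matrix (Fin 2) (Fin 2) ℚ_[p]) i j‖ ≤ 1 := by
  obtain ⟨u, rfl⟩ := hk
  exact ((u : Matrix (Fin 2) (Fin 2) ℤ_[p]) i j).2

lemma K_det {k : G p} (hk : k ∈ K p) : ‖(k : Matrix (Fin 2) (Fin 2) ℚ_[p]).det‖ = 1 := by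
  obtain ⟨u, rfl⟩ := hk
  have h1 : ((Matrix.GeneralLinearGroup.map (n := Fin 2) (algebraMap ℤ_[p] ℚ_[p]) u : G p) :
      Matrix (Fin 2) (Fin 2) ℚ_[p]).det =
      (((u : Matrix (Fin 2) (Fin 2) ℤ_[p]).det : ℤ_[p]) : ℚ_[p]) := by
    have := RingHom.map_det (algebraMap ℤ_[p] ℚ_[p]) (u : Matrix (Fin 2) (Fin 2) ℤ_[p])
    exact this.symm
  rw [h1]
  have h2 : IsUnit ((u : Matrix (Fin 2) (Fin 2) ℤ_[p]).det) :=
    (Matrix.isUnit_iff_isUnit_det _).1 u.isUnit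
  exact (PadicInt.isUnit_iff.1 h2)

lemma K_trace {k : G p} (hk : k ∈ K p) : ‖(k : Matrix (Fin 2) (Fin 2) ℚ_[p]).trace‖ ≤ 1 := by
  rw [Matrix.trace_fin_two]
  exact (Padic.nonarchimedean _ _).trans (max_le (K_entry hk 0 0) (K_entry hk 1 1))

lemma pR : (1 : ℝ) < p := by exact_mod_cast (Fact.out : p.Prime).one_lt

/-- An element of `Γ'` conjugate into `K` is `± 1`. -/
theorem stab_Gam' {M : ℕ} (hM : GoodMod M) (hp : IsCoprime (p : ℤ) (M : ℤ)) {k g : G p}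
    (hk : k ∈ K p) (h : g⁻¹ * k * g ∈ Gam' d hM hp) : k = 1 ∨ k = -1 := by
  obtain ⟨m, r, y, hyS, hn, hy⟩ := h
  have hyO := SM_sub hyS
  set γ : G p := g⁻¹ * k * g with hγ
  -- determinant and trace
  have hdet : (γ : Matrix (Fin 2) (Fin 2) ℚ_[p]).det = (k : Matrix (Fin 2) (Fin 2) ℚ_[p]).det := by
    have h1 : Matrix.GeneralLinearGroup.det γ = Matrix.GeneralLinearGroup.det k := by
      rw [hγ, map_mul, map_mul, map_inv, mul_comm, ← mul_assoc, mul_inv_cancel, one_mul]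
    have h2 := congrArg (fun u : ℚ_[p]ˣ => (u : ℚ_[p])) h1
    simpa using h2
  have htr : (γ : Matrix (Fin 2) (Fin 2) ℚ_[p]).trace =
      (k : Matrix (Fin 2) (Fin 2) ℚ_[p]).trace := by
    have h1 : (γ : Matrix (Fin 2) (Fin 2) ℚ_[p]) = ((g⁻¹ : G p) : Matrix (Fin 2) (Fin 2) ℚ_[p]) *
        (k : Matrix (Fin 2) (Fin 2) ℚ_[p]) * (g : Matrix (Fin 2) (Fin 2) ℚ_[p]) := by
      rw [hγ, Units.val_mul, Units.val_mul]
    rw [h1, Matrix.trace_mul_comm, ← mul_assoc]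
    have h2 : (g : Matrix (Fin 2) (Fin 2) ℚ_[p]) * ((g⁻¹ : G p) : Matrix (Fin 2) (Fin 2) ℚ_[p]) =
        1 := by rw [← Units.val_mul, mul_inv_cancel, Units.val_one]
    rw [h2, one_mul]
  have hd1 : ((p : ℚ_[p]) ^ m) ^ 2 * (γ : Matrix (Fin 2) (Fin 2) ℚ_[p]).det =
      (p : ℚ_[p]) ^ r := by
    have h1 := congrArg Matrix.det hy
    rw [Matrix.det_smul, Fintype.card_fin, Datum.iota_det, hn] at h1
    rw [h1]; push_cast; rfl
  have hr : r = 2 * m := by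
    have h1 := congrArg norm hd1
    rw [norm_mul, hdet, K_det hk, mul_one, norm_pow, norm_pow, norm_pow, ← pow_mul] at h1
    have h2 : ‖(p : ℚ_[p])‖ = (p : ℝ)⁻¹ := Padic.norm_p
    rw [h2, inv_pow, inv_pow, inv_inj] at h1
    have h3 := pow_right_injective₀ (by linarith [pR (p := p)]) (ne_of_gt pR) h1
    rw [← h3, mul_comm]
  obtain ⟨t', n', ht', -⟩ := Datum.int_of_mem hyO
  have ht1 : ((p : ℚ_[p]) ^ m) * (γ : Matrix (Fin 2) (Fin 2) ℚ_[p]).trace = (t' : ℚ_[p]) := by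
    have h1 := congrArg Matrix.trace hy
    rw [Matrix.trace_smul, Datum.iota_trace, ht', smul_eq_mul] at h1
    rw [h1]; push_cast; rfl
  have hdvd : ((p : ℤ) ^ m) ∣ t' := by
    have h1 : ‖(t' : ℚ_[p])‖ ≤ (p : ℝ) ^ (-(m : ℤ)) := by
      rw [← ht1, norm_mul, htr, norm_pow, Padic.norm_p, zpow_neg, zpow_natCast, ← inv_pow]
      have := K_trace hk
      have h2 : 0 ≤ ((p : ℝ)⁻¹) ^ m := by positivity
      nlinarith
    exact_mod_cast (Padic.norm_int_le_pow_iff_dvd t' m).1 h1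
  obtain ⟨t, ht⟩ := hdvd
  obtain ⟨e, he, z, hz, hye⟩ := hyS
  obtain ⟨e', he', j, hj⟩ := hM.sgn ((p : ℤ) ^ m) hp.pow_left
  -- `η = e e'`
  set η : ℤ := e * e' with hη
  have hη1 : η = 1 ∨ η = -1 := by
    rcases he with rfl | rfl <;> rcases he' with rfl | rfl <;> simp [hη]
  have hee : e' * e' = 1 := by rcases he' with rfl | rfl <;> norm_num
  have hz' : y - (((η * (p : ℤ) ^ m : ℤ) : ℚ) : ℍ[ℚ,d.a,d.b]) =
      (M : ℚ) • (z - ((η * j : ℤ) : ℍ[ℚ,d.a,d.b])) := by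
    have h1 : η * (p : ℤ) ^ m = e + (M : ℤ) * (η * j) := by
      rw [hj, hη]
      linear_combination e * hee
    rw [QuaternionAlgebra.coe_intCast, h1, hye, natCast_smul_eq]
    push_cast
    noncomm_ring
  have hzO : z - ((η * j : ℤ) : ℍ[ℚ,d.a,d.b]) ∈ d.O := d.O.sub_mem hz (intCast_mem d.O _)
  obtain ⟨w, hw⟩ := Datum.exists_norm hzO
  have hηsq : (η : ℚ) ^ 2 = 1 := by rcases hη1 with h | h <;> rw [h] <;> norm_num
  have hA : ((p : ℚ) ^ m) ^ 2 * (2 - η * t) = (M : ℚ) ^ 2 * w := by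
    have h1 := congrArg nrd hz'
    rw [nrd_sub_coe, nrd_smul, hw, hn, ht', ht, hr] at h1
    push_cast at h1
    rw [← h1]
    have : ((η : ℚ) * (p : ℚ) ^ m) ^ 2 = ((p : ℚ) ^ m) ^ 2 := by rw [mul_pow, hηsq, one_mul]
    rw [this]
    ring
  have hB : 0 ≤ (2 : ℚ) + η * t := by
    have h1 := nrd_nonneg d.ha d.hb (y - (((-(η * (p : ℤ) ^ m) : ℤ) : ℚ) : ℍ[ℚ,d.a,d.b]))
    rw [nrd_sub_coe, hn, ht', ht, hr] at h1
    push_cast at h1
    have h2 : (-((η : ℚ) * (p : ℚ) ^ m)) ^ 2 = ((p : ℚ) ^ m) ^ 2 := by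
      rw [neg_sq, mul_pow, hηsq, one_mul]
    rw [h2] at h1
    have h3 : 0 < ((p : ℚ) ^ m) ^ 2 := by
      have : (0 : ℚ) < p := by exact_mod_cast (Fact.out : p.Prime).pos
      positivity
    have h4 : 0 ≤ ((p : ℚ) ^ m) ^ 2 * (2 + η * t) := by
      calc (0 : ℚ) ≤ _ := h1
        _ = _ := by ring
    exact nonneg_of_mul_nonneg_right h4 h3
  -- integrality: `M ^ 2 ∣ 2 - η t`
  have hA' : ((p : ℤ) ^ m) ^ 2 * (2 - η * t) = (M : ℤ) ^ 2 * w := by exact_mod_cast hA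
  have hB' : 0 ≤ (2 : ℤ) + η * t := by exact_mod_cast hB
  have hC' : 0 ≤ (2 : ℤ) - η * t := by
    have h1 : 0 ≤ ((p : ℤ) ^ m) ^ 2 * (2 - η * t) := by rw [hA']; positivity
    have h3 : 0 < ((p : ℤ) ^ m) ^ 2 := by
      have : (0 : ℤ) < p := by exact_mod_cast (Fact.out : p.Prime).pos
      positivity
    exact nonneg_of_mul_nonneg_right h1 h3
  have hdv : ((M : ℤ) ^ 2) ∣ (2 - η * t) := by
    have h1 : ((M : ℤ) ^ 2) ∣ ((p : ℤ) ^ m) ^ 2 * (2 - η * t) := ⟨w, hA'⟩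
    have h2 : IsCoprime ((M : ℤ) ^ 2) (((p : ℤ) ^ m) ^ 2) := hp.symm.pow_right.pow_left.pow_right
    exact h2.dvd_of_dvd_mul_left h1
  have hzero : (2 : ℤ) - η * t = 0 := by
    obtain ⟨c, hc⟩ := hdv
    have hM3 : (3 : ℤ) ≤ M := by exact_mod_cast hM.ge
    have hc0 : 0 ≤ c := by
      have h1 : 0 ≤ (M : ℤ) ^ 2 * c := by rw [← hc]; exact hC'
      have h3 : 0 < (M : ℤ) ^ 2 := by positivity
      exact nonneg_of_mul_nonneg_right h1 h3
    have hc1 : c < 1 := by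
      by_contra hcon
      push Not at hcon
      nlinarith
    have : c = 0 := by omega
    rw [hc, this, mul_zero]
  have hn0 : y - (((η * (p : ℤ) ^ m : ℤ) : ℚ) : ℍ[ℚ,d.a,d.b]) = 0 := by
    apply eq_zero_of_nrd d.ha d.hb
    rw [hz', nrd_smul, hw, ← hA]
    have : (2 : ℚ) - η * t = 0 := by exact_mod_cast hzero
    rw [this, mul_zero]
  have hyy : y = (((η * (p : ℤ) ^ m : ℤ) : ℚ) : ℍ[ℚ,d.a,d.b]) := sub_eq_zero.1 hn0
  have hγη : (γ : Matrix (Fin 2) (Fin 2) ℚ_[p]) = (η : ℚ_[p]) • 1 := by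
    have h1 := hy
    rw [hyy, Datum.iota_coe] at h1
    have h2 : ((((η * (p : ℤ) ^ m : ℤ) : ℚ)) : ℚ_[p]) = (p : ℚ_[p]) ^ m * η := by
      push_cast; ring
    rw [h2, mul_smul] at h1
    exact smul_right_injective _ (pow_ne_zero m p0) h1
  have hkγ : k = g * γ * g⁻¹ := by rw [hγ]; group
  rcases hη1 with h | h
  · left
    have : γ = 1 := by
      apply Units.ext
      rw [hγη, h]; simp
    rw [hkγ, this]; simp
  · right
    have : γ = -1 := by
      apply Units.ext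
      rw [hγη, h]
      simp
    rw [hkγ, this]; simp

/-! ### the group `Γ₁` -/

variable (d) in
/-- The preimage in `Γ` of a Sylow `p`-subgroup of `Γ / Γ'`. -/
def Gam1 {M : ℕ} (hM : GoodMod M) (hp : IsCoprime (p : ℤ) (M : ℤ)) : Subgroup (G p) :=
  (((default : Sylow p (Gam d ⧸ (Gam' d hM hp).subgroupOf (Gam d))) :
    Subgroup (Gam d ⧸ (Gam' d hM hp).subgroupOf (Gam d))).comap
      (QuotientGroup.mk' ((Gam' d hM hp).subgroupOf (Gam d)))).map (Gam d).subtype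

lemma Gam1_le {M : ℕ} (hM : GoodMod M) (hp : IsCoprime (p : ℤ) (M : ℤ)) :
    Gam1 d hM hp ≤ Gam d := by
  rintro _ ⟨x, _, rfl⟩
  exact x.2

lemma Gam'_le_Gam1 {M : ℕ} (hM : GoodMod M) (hp : IsCoprime (p : ℤ) (M : ℤ)) :
    Gam' d hM hp ≤ Gam1 d hM hp := by
  intro g hg
  refine ⟨⟨g, Gam'_le hM hp hg⟩, ?_, rfl⟩
  simp only [Subgroup.coe_comap, Set.mem_preimage, SetLike.mem_coe]
  have : QuotientGroup.mk' ((Gam' d hM hp).subgroupOf (Gam d)) ⟨g, Gam'_le hM hp hg⟩ = 1 := by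
    rw [QuotientGroup.mk'_apply, QuotientGroup.eq_one_iff, Subgroup.mem_subgroupOf]
    exact hg
  rw [this]
  exact Subgroup.one_mem _

/-- No torsion of order `p` modulo `± 1` in the quaternion algebra. -/
def NoTors (d : Datum p) : Prop :=
  ∀ x : ℍ[ℚ,d.a,d.b], x ^ p = 1 ∨ x ^ p = -1 → x = 1 ∨ x = -1

lemma tors_Gam (hT : NoTors d) {γ : G p} (hγ : γ ∈ Gam d) (h : γ ^ p = 1 ∨ γ ^ p = -1) :
    γ = 1 ∨ γ = -1 := by
  obtain ⟨m, r, y, hy, hn, hg⟩ := hγ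
  let x : ℍ[ℚ,d.a,d.b] := ((p : ℚ) ^ m)⁻¹ • y
  have hx : d.ι x = (γ : Matrix (Fin 2) (Fin 2) ℚ_[p]) := by
    have h1 : d.ι x = ((p : ℚ_[p]) ^ m)⁻¹ • d.ι y := by
      rw [Datum.iota_smul]; push_cast; rfl
    rw [h1, ← hg, smul_smul, inv_mul_cancel₀ (pow_ne_zero m p0), one_smul]
  have hxp : d.ι (x ^ p) = ((γ ^ p : G p) : Matrix (Fin 2) (Fin 2) ℚ_[p]) := by
    rw [map_pow, hx, Units.val_pow_eq_pow_val]
  have h1 : x ^ p = 1 ∨ x ^ p = -1 := by
    rcases h with h | h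
    · left
      apply d.iota_injective
      rw [hxp, h, map_one, Units.val_one]
    · right
      apply d.iota_injective
      rw [hxp, h, map_neg, map_one, Units.val_neg, Units.val_one]
  rcases hT x h1 with h | h
  · left
    apply Units.ext
    rw [← hx, h, map_one, Units.val_one]
  · right
    apply Units.ext
    rw [← hx, h, map_neg, map_one, Units.val_neg, Units.val_one]

/-- An element of `Γ₁` conjugate into `K` is `± 1`. -/
theorem stab_Gam1 {M : ℕ} (hM : GoodMod M) (hp : IsCoprime (p : ℤ) (M : ℤ)) (hT : NoTors d)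
    {k g : G p} (hk : k ∈ K p) (h : g⁻¹ * k * g ∈ Gam1 d hM hp) : k = 1 ∨ k = -1 := by
  have hG : g⁻¹ * k * g ∈ Gam d := Gam1_le hM hp h
  obtain ⟨x, hx, hxg⟩ := h
  simp only [Subgroup.coe_comap, Set.mem_preimage, SetLike.mem_coe] at hx
  have hP : IsPGroup p ((default : Sylow p (Gam d ⧸ (Gam' d hM hp).subgroupOf (Gam d))) :
    Subgroup (Gam d ⧸ (Gam' d hM hp).subgroupOf (Gam d))) :=
    (default : Sylow p (Gam d ⧸ (Gam' d hM hp).subgroupOf (Gam d))).isPGroup'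
  obtain ⟨a, ha⟩ := hP ⟨_, hx⟩
  have ha' : (QuotientGroup.mk' ((Gam' d hM hp).subgroupOf (Gam d)) x) ^ p ^ a = 1 := by
    have := congrArg Subtype.val ha
    simpa using this
  have h1 : (x : G p) ^ p ^ a ∈ Gam' d hM hp := by
    rw [← map_pow, QuotientGroup.mk'_apply, QuotientGroup.eq_one_iff,
      Subgroup.mem_subgroupOf] at ha'
    simpa using ha'
  have hxg' : (x : G p) = g⁻¹ * k * g := hxg
  -- descent
  have conj_pow : ∀ n : ℕ, (g⁻¹ * k * g) ^ n = g⁻¹ * k ^ n * g := by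
    intro n
    induction n with
    | zero => simp
    | succ n ih => rw [pow_succ, ih, pow_succ]; group
  have h2 : k ^ p ^ a = 1 ∨ k ^ p ^ a = -1 := by
    refine stab_Gam' (d := d) hM hp (g := g) ((K p).pow_mem hk _) ?_
    rw [← conj_pow, ← hxg']; exact h1
  have h3 : (x : G p) ^ p ^ a = 1 ∨ (x : G p) ^ p ^ a = -1 := by
    rw [hxg', conj_pow]
    rcases h2 with h | h
    · left; rw [h]; group
    · right; rw [h]; simp
  have h4 : ∀ b : ℕ, (x : G p) ^ p ^ b = 1 ∨ (x : G p) ^ p ^ b = -1 →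
      (x : G p) = 1 ∨ (x : G p) = -1 := by
    intro b
    induction b with
    | zero => intro h; simpa using h
    | succ b ih =>
      intro h
      apply ih
      rw [pow_succ, pow_mul] at h
      exact tors_Gam hT ((Gam d).pow_mem x.2 _) h
  have h5 : k = g * (x : G p) * g⁻¹ := by rw [hxg']; group
  rcases h4 a h3 with h | h
  · left; rw [h5, h]; group
  · right; rw [h5, h]; simp

/-- The index of `Γ₁` in `Γ` is prime to `p`. -/
theorem index_Gam1 {M : ℕ} (hM : GoodMod M) (hp : IsCoprime (p : ℤ) (M : ℤ)) :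
    Nat.card (Gam d ⧸ (Gam1 d hM hp).subgroupOf (Gam d)) ≠ 0 ∧
      ¬ p ∣ Nat.card (Gam d ⧸ (Gam1 d hM hp).subgroupOf (Gam d)) := by
  have hfin := finite_index (d := d) hM hp
  set Q := Gam d ⧸ (Gam' d hM hp).subgroupOf (Gam d) with hQ
  let P : Sylow p Q := default
  have h1 : (Gam1 d hM hp).subgroupOf (Gam d) =
      (P : Subgroup Q).comap (QuotientGroup.mk' ((Gam' d hM hp).subgroupOf (Gam d))) := by
    ext x
    rw [Subgroup.mem_subgroupOf]
    constructor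
    · rintro ⟨y, hy, hyx⟩
      have : y = x := Subtype.ext hyx
      rw [← this]; exact hy
    · intro hx
      exact ⟨x, hx, rfl⟩
  have h2 : (((P : Subgroup Q).comap
      (QuotientGroup.mk' ((Gam' d hM hp).subgroupOf (Gam d))))).index = (P : Subgroup Q).index :=
    Subgroup.index_comap_of_surjective _ (QuotientGroup.mk'_surjective _)
  have h3 : Nat.card (Gam d ⧸ (Gam1 d hM hp).subgroupOf (Gam d)) = (P : Subgroup Q).index := by
    rw [← h2, h1]; rfl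
  rw [h3]
  exact ⟨Subgroup.index_ne_zero_of_finite, P.not_dvd_index⟩

end Gouvea.Quat
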